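import Pool.Agent.H28.BR.IRR

set_option autoImplicit false

/-! Project BR: the first moment in Bohr sets with power saving. -/

namespace Pool.Agent.H75.BR

open Finset Filter Topology MeasureTheory Pool.Agent.H306R2.RZ Pool.Agent.H306R2.RG
  Pool.Agent.Q122.FM Pool.Agent.H28.BR
open Pool.Agent.Helper112 (ee)

noncomputable section

theorem lg_le_rpow (a : ℝ) (ha : 0 < a) (X : ℕ) (hX : 1 ≤ X) :
    lg X ≤ (1 + 1 / a) * (X : ℝ) ^ a := by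
  have hx : (1 : ℝ) ≤ X := by exact_mod_cast hX
  have h1 := Real.log_le_rpow_div (x := (X : ℝ)) (ε := a) (by linarith) ha
  have h2 : 1 ≤ (X : ℝ) ^ a := Real.one_le_rpow hx ha.le
  unfold lg
  have h3 : (1 + 1 / a) * (X : ℝ) ^ a = (X : ℝ) ^ a + (X : ℝ) ^ a / a := by ring
  rw [h3]
  linarith

/-- lower bound for the denominator of the approximations -/
theorem q_lower (α c : ℝ) (τ : ℕ) (hc : 0 < c) (hτ : 1 ≤ τ)
    (hα : ∀ h : ℕ, 1 ≤ h → c / (h : ℝ) ^ τ ≤ nd (h * α)) (X h q : ℕ) (b : ℤ) (hX : 1 ≤ X)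
    (hq : 1 ≤ q) (hb : |((h : ℝ) + 1) * α - (b : ℝ) / q| ≤ 1 / (Real.sqrt X * q)) :
    (q : ℝ) ^ ((1 / 8 : ℝ) - 1 / 2) ≤
      c ^ (-(3 / (8 * (τ : ℝ)))) * (X : ℝ) ^ (-(3 / (16 * (τ : ℝ)))) * ((h : ℝ) + 1) ^ (3 / 8 : ℝ) := by
  have hx : (1 : ℝ) ≤ X := by exact_mod_cast hX
  have hx0 : (0 : ℝ) < X := by linarith
  have hq1 : (1 : ℝ) ≤ q := by exact_mod_cast hq
  have hq0 : (0 : ℝ) < q := by linarith
  have hh0 : (0 : ℝ) < (h : ℝ) + 1 := by positivity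
  have hτ0 : (0 : ℝ) < τ := by exact_mod_cast hτ
  have hs : 0 < Real.sqrt X := Real.sqrt_pos.2 hx0
  have h1 := hα ((h + 1) * q) (Nat.mul_pos (Nat.succ_pos h) hq)
  have h2 : nd ((((h + 1) * q : ℕ) : ℝ) * α) ≤ 1 / Real.sqrt X := by
    unfold nd
    refine (round_le _ b).trans ?_
    have e1 : ((((h + 1) * q : ℕ) : ℝ) * α - (b : ℝ)) = (((h : ℝ) + 1) * α - (b : ℝ) / q) * q := by
      push_cast
      field_simp
    rw [e1, abs_mul, abs_of_pos hq0]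
    calc |((h : ℝ) + 1) * α - (b : ℝ) / q| * q ≤ 1 / (Real.sqrt X * q) * q := by gcongr
      _ = 1 / Real.sqrt X := by field_simp
  have h3 : c / ((((h + 1) * q : ℕ) : ℝ)) ^ τ ≤ 1 / Real.sqrt X := h1.trans h2
  have hcast : (((h + 1) * q : ℕ) : ℝ) = ((h : ℝ) + 1) * q := by push_cast; ring
  rw [hcast] at h3
  have hp : 0 < (((h : ℝ) + 1) * q) ^ τ := by positivity
  rw [div_le_div_iff₀ hp hs, one_mul] at h3
  -- c √X ≤ ((h+1) q)^τ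
  have h4 : (c * Real.sqrt X) ^ (1 / (τ : ℝ)) ≤ ((h : ℝ) + 1) * q := by
    calc (c * Real.sqrt X) ^ (1 / (τ : ℝ)) ≤ ((((h : ℝ) + 1) * q) ^ τ) ^ (1 / (τ : ℝ)) :=
          Real.rpow_le_rpow (by positivity) h3 (by positivity)
      _ = ((h : ℝ) + 1) * q := by
          rw [one_div]
          exact Real.pow_rpow_inv_natCast (by positivity) (by omega)
  have h5 : 0 < (c * Real.sqrt X) ^ (1 / (τ : ℝ)) := by positivity
  have h6 : (((h : ℝ) + 1) * q) ^ (-(3 / 8) : ℝ) ≤ ((c * Real.sqrt X) ^ (1 / (τ : ℝ))) ^ (-(3 / 8) : ℝ) :=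
    Real.rpow_le_rpow_of_nonpos h5 h4 (by norm_num)
  have h7 : ((c * Real.sqrt X) ^ (1 / (τ : ℝ))) ^ (-(3 / 8) : ℝ) =
      c ^ (-(3 / (8 * (τ : ℝ)))) * (X : ℝ) ^ (-(3 / (16 * (τ : ℝ)))) := by
    rw [← Real.rpow_mul (by positivity), Real.mul_rpow hc.le (Real.sqrt_nonneg _), Real.sqrt_eq_rpow,
      ← Real.rpow_mul hx0.le]
    congr 2
    · field_simp
    · field_simp
      norm_num
  rw [h7, Real.mul_rpow hh0.le hq0.le] at h6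
  have h8 : ((h : ℝ) + 1) ^ (-(3 / 8) : ℝ) * ((h : ℝ) + 1) ^ (3 / 8 : ℝ) = 1 := by
    rw [← Real.rpow_add hh0]
    norm_num
  have h9 : 0 ≤ ((h : ℝ) + 1) ^ (3 / 8 : ℝ) := by positivity
  calc (q : ℝ) ^ ((1 / 8 : ℝ) - 1 / 2) = (q : ℝ) ^ (-(3 / 8) : ℝ) := by norm_num
    _ = (((h : ℝ) + 1) ^ (-(3 / 8) : ℝ) * ((h : ℝ) + 1) ^ (3 / 8 : ℝ)) * (q : ℝ) ^ (-(3 / 8) : ℝ) := by
        rw [h8, one_mul]
    _ = (((h : ℝ) + 1) ^ (-(3 / 8) : ℝ) * (q : ℝ) ^ (-(3 / 8) : ℝ)) * ((h : ℝ) + 1) ^ (3 / 8 : ℝ) := by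
        ring
    _ ≤ _ := mul_le_mul_of_nonneg_right h6 h9

/-- the exponential sums at the multiples of `α` -/
theorem SX_mult (exp : S_EXP) (α c : ℝ) (τ : ℕ) (hc : 0 < c) (hτ : 1 ≤ τ)
    (hα : ∀ h : ℕ, 1 ≤ h → c / (h : ℝ) ^ τ ≤ nd (h * α)) : ∃ C : ℝ, 0 < C ∧
    ∀ ε : ℤ, (ε = 1 ∨ ε = -1) → ∀ X h : ℕ, 1 ≤ X →
    ‖SX ε (((h : ℝ) + 1) * α) X‖ ≤
      C * (X : ℝ) ^ (1 - 1 / (16 * (τ : ℝ))) * ((h : ℝ) + 1) ^ (3 / 8 : ℝ) := by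
  obtain ⟨C, hC, hexp⟩ := exp (1 / 8) (by norm_num) le_rfl
  have hτ1 : (1 : ℝ) ≤ τ := by exact_mod_cast hτ
  have hτ0 : (0 : ℝ) < τ := by linarith
  set a : ℝ := 1 / (8 * (τ : ℝ)) with ha
  have ha0 : 0 < a := by positivity
  set K1 : ℝ := 1 + 1 / a with hK1
  have hK10 : 0 < K1 := by positivity
  set c1 : ℝ := c ^ (-(3 / (8 * (τ : ℝ)))) with hc1
  have hc10 : 0 < c1 := by positivity
  refine ⟨C * (K1 * c1 + 33 ^ 2), by positivity, ?_⟩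
  intro ε hε X h hX
  have hx : (1 : ℝ) ≤ X := by exact_mod_cast hX
  have hx0 : (0 : ℝ) < X := by linarith
  have hh0 : (0 : ℝ) < (h : ℝ) + 1 := by positivity
  have hh1 : (1 : ℝ) ≤ (h : ℝ) + 1 := by
    have : (0 : ℝ) ≤ h := Nat.cast_nonneg h
    linarith
  obtain ⟨b, q, hq, hqX, hcop, hb1, hb2⟩ := dirichlet (((h : ℝ) + 1) * α) X hX
  have h1 := hexp ε hε (((h : ℝ) + 1) * α) b q X hq hqX hcop hb1
  have h2 := q_lower α c τ hc hτ hα X h q b hX hq hb2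
  have h3 := lg_le_rpow a ha0 X hX
  have h4 := lg_le_rpow (1 / 32) (by norm_num) X hX
  have hlg : 1 ≤ lg X := lg_one_le hX
  have hp : 1 ≤ ((h : ℝ) + 1) ^ (3 / 8 : ℝ) := Real.one_le_rpow hh1 (by norm_num)
  have e1 : (X : ℝ) * lg X * (q : ℝ) ^ ((1 / 8 : ℝ) - 1 / 2) ≤
      K1 * c1 * (X : ℝ) ^ (1 - 1 / (16 * (τ : ℝ))) * ((h : ℝ) + 1) ^ (3 / 8 : ℝ) := by
    calc (X : ℝ) * lg X * (q : ℝ) ^ ((1 / 8 : ℝ) - 1 / 2)
        ≤ (X : ℝ) * (K1 * (X : ℝ) ^ a) *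
          (c1 * (X : ℝ) ^ (-(3 / (16 * (τ : ℝ)))) * ((h : ℝ) + 1) ^ (3 / 8 : ℝ)) := by
          gcongr
      _ = K1 * c1 * (((X : ℝ) ^ (1 : ℝ) * (X : ℝ) ^ a) * (X : ℝ) ^ (-(3 / (16 * (τ : ℝ))))) *
          ((h : ℝ) + 1) ^ (3 / 8 : ℝ) := by
          rw [Real.rpow_one]
          ring
      _ = _ := by
          rw [← Real.rpow_add hx0, ← Real.rpow_add hx0]
          congr 3
          rw [ha]
          field_simp
          ring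
  have e2 : (X : ℝ) ^ (7 / 8 : ℝ) * lg X ^ 2 ≤
      33 ^ 2 * (X : ℝ) ^ (1 - 1 / (16 * (τ : ℝ))) * ((h : ℝ) + 1) ^ (3 / 8 : ℝ) := by
    have hexp2 : (15 / 16 : ℝ) ≤ 1 - 1 / (16 * (τ : ℝ)) := by
      have : 1 / (16 * (τ : ℝ)) ≤ 1 / 16 := by
        apply one_div_le_one_div_of_le (by norm_num)
        linarith
      linarith
    calc (X : ℝ) ^ (7 / 8 : ℝ) * lg X ^ 2
        ≤ (X : ℝ) ^ (7 / 8 : ℝ) * ((1 + 1 / (1 / 32)) * (X : ℝ) ^ (1 / 32 : ℝ)) ^ 2 := by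
          gcongr
      _ = 33 ^ 2 * ((X : ℝ) ^ (7 / 8 : ℝ) * ((X : ℝ) ^ (1 / 32 : ℝ) * (X : ℝ) ^ (1 / 32 : ℝ))) := by
          norm_num
          ring
      _ = 33 ^ 2 * (X : ℝ) ^ (15 / 16 : ℝ) := by
          rw [← Real.rpow_add hx0, ← Real.rpow_add hx0]
          norm_num
      _ ≤ 33 ^ 2 * (X : ℝ) ^ (1 - 1 / (16 * (τ : ℝ))) := by
          gcongr
      _ ≤ 33 ^ 2 * (X : ℝ) ^ (1 - 1 / (16 * (τ : ℝ))) * ((h : ℝ) + 1) ^ (3 / 8 : ℝ) :=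
          le_mul_of_one_le_right (by positivity) hp
  calc ‖SX ε (((h : ℝ) + 1) * α) X‖ ≤ _ := h1
    _ ≤ C * (K1 * c1 * (X : ℝ) ^ (1 - 1 / (16 * (τ : ℝ))) * ((h : ℝ) + 1) ^ (3 / 8 : ℝ) +
        33 ^ 2 * (X : ℝ) ^ (1 - 1 / (16 * (τ : ℝ))) * ((h : ℝ) + 1) ^ (3 / 8 : ℝ)) := by
        gcongr
    _ = _ := by ring

theorem summ_38 : Summable fun h : ℕ => ((h : ℝ) + 1) ^ (3 / 8 : ℝ) / ((h : ℝ) + 1) ^ 2 := by
  have h1 : Summable fun n : ℕ => (n : ℝ) ^ (-(13 / 8) : ℝ) :=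
    Real.summable_nat_rpow.2 (by norm_num)
  have h2 := (summable_nat_add_iff 1).2 h1
  refine h2.congr fun h => ?_
  have hh0 : (0 : ℝ) < (h : ℝ) + 1 := by positivity
  have e1 : (-(13 / 8) : ℝ) = 3 / 8 - 2 := by norm_num
  push_cast
  rw [e1, Real.rpow_sub hh0]
  norm_num

theorem t_BHR (exp : S_EXP) (fm0 : S_FM0) (trap : S_TRAP) (gwl : S_GWL) (arc : S_ARC) : S_BHR := by
  intro α c τ hc hτ hα
  obtain ⟨C1, hC1, sx⟩ := SX_mult exp α c τ hc hτ hα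
  obtain ⟨C2, hC2, gwl⟩ := gwl
  obtain ⟨C3, hC3, fm0⟩ := fm0
  obtain ⟨C4, hC4, arc⟩ := arc α c τ hc hτ hα
  have hτ1 : (1 : ℝ) ≤ τ := by exact_mod_cast hτ
  have hτ0 : (0 : ℝ) < τ := by linarith
  set S : ℝ := ∑' h : ℕ, ((h : ℝ) + 1) ^ (3 / 8 : ℝ) / ((h : ℝ) + 1) ^ 2 with hS
  have hS0 : 0 ≤ S := tsum_nonneg fun h => by positivity
  set δ : ℝ := 1 / (128 * (τ : ℝ) ^ 2) with hδ
  have hδ0 : 0 < δ := by positivity
  have hδ1 : δ ≤ 1 / (128 * (τ : ℝ)) := by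
    apply one_div_le_one_div_of_le (by positivity)
    nlinarith
  have hδ2 : 1 / (128 * (τ : ℝ)) ≤ 1 / 128 := by
    apply one_div_le_one_div_of_le (by norm_num)
    linarith
  set a : ℝ := 2 / 3 * δ with ha
  have ha0 : 0 < a := by positivity
  set K : ℝ := 1 + 1 / a with hK
  have hK0 : 0 < K := by positivity
  refine ⟨C1 * S + 3 * (C2 * Real.sqrt (4 * C4) * K ^ (3 / 2 : ℝ)) + C3, δ, by positivity, hδ0, ?_⟩
  intro ε hε X β v hX hv0 hv1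
  have hx : (1 : ℝ) ≤ X := by exact_mod_cast hX
  have hx0 : (0 : ℝ) < X := by linarith
  set Δ : ℝ := (X : ℝ) ^ (-(1 / (32 * (τ : ℝ)))) with hΔ
  have hΔ0 : 0 < Δ := by positivity
  have hΔ1 : Δ ≤ 1 := Real.rpow_le_one_of_one_le_of_nonpos hx (by
    have : 0 < 1 / (32 * (τ : ℝ)) := by positivity
    linarith)
  have h1 := trap (Ioc 1 X) (fun n => Lf ε n) α β v Δ hv0 hv1 hΔ0 hΔ1
  -- the tsum
  have hts : 1 / Δ * ∑' h : ℕ, ‖∑ n ∈ Ioc 1 X, (Lf ε n : ℂ) * ee (((h : ℝ) + 1) * α * n)‖ /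
      ((h : ℝ) + 1) ^ 2 ≤ C1 * S * (X : ℝ) ^ (1 - δ) := by
    have hb : ∀ h : ℕ, ‖∑ n ∈ Ioc 1 X, (Lf ε n : ℂ) * ee (((h : ℝ) + 1) * α * n)‖ / ((h : ℝ) + 1) ^ 2 ≤
        C1 * (X : ℝ) ^ (1 - 1 / (16 * (τ : ℝ))) *
          (((h : ℝ) + 1) ^ (3 / 8 : ℝ) / ((h : ℝ) + 1) ^ 2) := by
      intro h
      have := sx ε hε X h hX
      unfold SX at this
      calc _ ≤ (C1 * (X : ℝ) ^ (1 - 1 / (16 * (τ : ℝ))) * ((h : ℝ) + 1) ^ (3 / 8 : ℝ)) /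
            ((h : ℝ) + 1) ^ 2 := by gcongr
        _ = _ := by ring
    have hsr : Summable fun h : ℕ => C1 * (X : ℝ) ^ (1 - 1 / (16 * (τ : ℝ))) *
          (((h : ℝ) + 1) ^ (3 / 8 : ℝ) / ((h : ℝ) + 1) ^ 2) := summ_38.mul_left _
    have hsl : Summable fun h : ℕ => ‖∑ n ∈ Ioc 1 X, (Lf ε n : ℂ) * ee (((h : ℝ) + 1) * α * n)‖ /
        ((h : ℝ) + 1) ^ 2 := Summable.of_nonneg_of_le (fun h => by positivity) hb hsr
    have hle := hsl.tsum_le_tsum hb hsr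
    rw [tsum_mul_left] at hle
    have hΔi : 1 / Δ = (X : ℝ) ^ (1 / (32 * (τ : ℝ))) := by
      rw [hΔ, Real.rpow_neg hx0.le, one_div, inv_inv]
    calc _ ≤ 1 / Δ * (C1 * (X : ℝ) ^ (1 - 1 / (16 * (τ : ℝ))) * S) := by gcongr
      _ = C1 * S * ((X : ℝ) ^ (1 / (32 * (τ : ℝ))) * (X : ℝ) ^ (1 - 1 / (16 * (τ : ℝ)))) := by
          rw [hΔi]; ring
      _ = C1 * S * (X : ℝ) ^ (1 / (32 * (τ : ℝ)) + (1 - 1 / (16 * (τ : ℝ)))) := by
          rw [← Real.rpow_add hx0]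
      _ ≤ C1 * S * (X : ℝ) ^ (1 - δ) := by
          apply mul_le_mul_of_nonneg_left _ (by positivity)
          apply Real.rpow_le_rpow_of_exponent_le hx
          have e1 : 1 / (32 * (τ : ℝ)) + (1 - 1 / (16 * (τ : ℝ))) = 1 - 4 * (1 / (128 * (τ : ℝ))) := by
            field_simp
            ring
          rw [e1]
          have : 0 < 1 / (128 * (τ : ℝ)) := by positivity
          linarith
  -- the exceptional set
  have hex : ∑ n ∈ (Ioc 1 X).filter (fun n : ℕ => Int.fract (α * n + β) < Δ ∨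
      Int.fract (α * n + β - v) < Δ), |Lf ε n| ≤
      C2 * Real.sqrt (4 * C4) * K ^ (3 / 2 : ℝ) * (X : ℝ) ^ (1 - δ) := by
    set T : Finset ℕ := (Ioc 1 X).filter (fun n : ℕ => Int.fract (α * n + β) < Δ ∨
      Int.fract (α * n + β - v) < Δ) with hT
    have hg := gwl ε hε X T hX (filter_subset _ _)
    have hc1 : (T.card : ℝ) ≤ 4 * C4 * (X : ℝ) ^ (1 - 4 * δ) := by
      have a1 := arc X β Δ hX hΔ0 hΔ1
      have a2 := arc X (β - v) Δ hX hΔ0 hΔ1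
      have a3 : T.card ≤ ((Ioc 1 X).filter (fun n : ℕ => Int.fract (α * n + β) < Δ)).card +
          ((Ioc 1 X).filter (fun n : ℕ => Int.fract (α * n + (β - v)) < Δ)).card := by
        rw [hT, filter_or]
        refine (card_union_le _ _).trans ?_
        simp only [add_sub_assoc]
        exact le_rfl
      have a4 : (T.card : ℝ) ≤ ((Ioc 1 X).filter (fun n : ℕ => Int.fract (α * n + β) < Δ)).card +
          ((Ioc 1 X).filter (fun n : ℕ => Int.fract (α * n + (β - v)) < Δ)).card := by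
        exact_mod_cast a3
      have e1 : (X : ℝ) * Δ ^ (1 / (τ : ℝ)) = (X : ℝ) ^ (1 - 4 * δ) := by
        rw [hΔ, ← Real.rpow_mul hx0.le]
        nth_rewrite 1 [← Real.rpow_one (X : ℝ)]
        rw [← Real.rpow_add hx0]
        congr 1
        rw [hδ]
        field_simp
        ring
      rw [e1] at a1 a2
      have e2 : 1 ≤ (X : ℝ) ^ (1 - 4 * δ) := Real.one_le_rpow hx (by linarith)
      have e3 : C4 * 1 ≤ C4 * (X : ℝ) ^ (1 - 4 * δ) := by gcongr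
      nlinarith
    have hc2 : Real.sqrt T.card ≤ Real.sqrt (4 * C4) * (X : ℝ) ^ (1 / 2 - 2 * δ) := by
      calc Real.sqrt T.card ≤ Real.sqrt (4 * C4 * (X : ℝ) ^ (1 - 4 * δ)) := Real.sqrt_le_sqrt hc1
        _ = Real.sqrt (4 * C4) * Real.sqrt ((X : ℝ) ^ (1 - 4 * δ)) :=
            Real.sqrt_mul (by positivity) _
        _ = _ := by
            rw [Real.sqrt_eq_rpow ((X : ℝ) ^ (1 - 4 * δ)), ← Real.rpow_mul hx0.le]
            congr 2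
            ring
    have hc3 : lg X ^ (3 / 2 : ℝ) ≤ K ^ (3 / 2 : ℝ) * (X : ℝ) ^ δ := by
      have hlg : 1 ≤ lg X := lg_one_le hX
      calc lg X ^ (3 / 2 : ℝ) ≤ (K * (X : ℝ) ^ a) ^ (3 / 2 : ℝ) :=
            Real.rpow_le_rpow (by linarith) (lg_le_rpow a ha0 X hX) (by norm_num)
        _ = K ^ (3 / 2 : ℝ) * ((X : ℝ) ^ a) ^ (3 / 2 : ℝ) := Real.mul_rpow hK0.le (by positivity)
        _ = _ := by
            rw [← Real.rpow_mul hx0.le]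
            congr 2
            rw [ha]
            ring
    calc _ ≤ C2 * Real.sqrt T.card * Real.sqrt X * lg X ^ (3 / 2 : ℝ) := hg
      _ ≤ C2 * (Real.sqrt (4 * C4) * (X : ℝ) ^ (1 / 2 - 2 * δ)) * Real.sqrt X *
          (K ^ (3 / 2 : ℝ) * (X : ℝ) ^ δ) := by
          have hlg0 : 0 ≤ lg X ^ (3 / 2 : ℝ) :=
            Real.rpow_nonneg (le_trans zero_le_one (lg_one_le hX)) _
          gcongr
      _ = C2 * Real.sqrt (4 * C4) * K ^ (3 / 2 : ℝ) *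
          (((X : ℝ) ^ (1 / 2 - 2 * δ) * (X : ℝ) ^ (1 / 2 : ℝ)) * (X : ℝ) ^ δ) := by
          rw [Real.sqrt_eq_rpow (X : ℝ)]
          ring
      _ = _ := by
          rw [← Real.rpow_add hx0, ← Real.rpow_add hx0]
          congr 2
          ring
  -- the main term
  have hmt : |v * (∑ n ∈ Ioc 1 X, Lf ε n) - v * M0 ε X| ≤ C3 * (X : ℝ) ^ (1 - δ) := by
    rw [← mul_sub, abs_mul, abs_of_nonneg hv0]
    calc v * |∑ n ∈ Ioc 1 X, Lf ε n - M0 ε X| ≤ 1 * (C3 * (X : ℝ) ^ (29 / 30 : ℝ)) := by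
          gcongr
          exact fm0 ε hε X hX
      _ = C3 * (X : ℝ) ^ (29 / 30 : ℝ) := one_mul _
      _ ≤ C3 * (X : ℝ) ^ (1 - δ) := by
          apply mul_le_mul_of_nonneg_left _ hC3.le
          apply Real.rpow_le_rpow_of_exponent_le hx
          linarith
  have htri := abs_sub_le (∑ n ∈ (Ioc 1 X).filter (fun n : ℕ => Int.fract (α * n + β) < v), Lf ε n)
    (v * ∑ n ∈ Ioc 1 X, Lf ε n) (v * M0 ε X)
  have e3 : (C1 * S + 3 * (C2 * Real.sqrt (4 * C4) * K ^ (3 / 2 : ℝ)) + C3) * (X : ℝ) ^ (1 - δ) =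
      C1 * S * (X : ℝ) ^ (1 - δ) + 3 * (C2 * Real.sqrt (4 * C4) * K ^ (3 / 2 : ℝ) * (X : ℝ) ^ (1 - δ)) +
        C3 * (X : ℝ) ^ (1 - δ) := by ring
  rw [e3]
  linarith

end

end Pool.Agent.H75.BR
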