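import Pool.Agent.H28.BR.Stm

set_option autoImplicit false

/-! Project BR: two one-variable estimates, KIN and VSM. -/

namespace Pool.Agent.H75.BR

open Finset Filter Topology MeasureTheory Pool.Agent.H306R2.RZ Pool.Agent.H306R2.RG
  Pool.Agent.Q122.FM Pool.Agent.H28.BR
open Pool.Agent.Helper112 (ee)

noncomputable section

theorem t_KIN : S_KIN := by
  have hG : 0 < Real.Gamma (1 / 8) := Real.Gamma_pos_of_pos (by norm_num)
  refine ⟨(2 : ℝ) ^ (1 / 8 : ℝ) * Real.Gamma (1 / 8), by positivity, ?_⟩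
  intro n z hn hz
  have hn0 : (0 : ℝ) < n := by exact_mod_cast hn
  set r : ℝ := (n : ℝ) ^ 2 / 2 with hr
  have hr0 : 0 < r := by positivity
  -- the majorant
  have hint : IntegrableOn (fun w : ℝ => w ^ ((1 / 8 : ℝ) - 1) * Real.exp (-(r * w))) (Set.Ioi 0) := by
    have h := integrableOn_rpow_mul_exp_neg_mul_rpow (p := 1) (s := (1 / 8 : ℝ) - 1) (b := r)
      (by norm_num) one_pos hr0
    refine h.congr_fun (fun w hw => ?_) measurableSet_Ioi
    simp only [Real.rpow_one, neg_mul]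
  have hval : ∫ w in Set.Ioi (0 : ℝ), w ^ ((1 / 8 : ℝ) - 1) * Real.exp (-(r * w)) =
      (1 / r) ^ (1 / 8 : ℝ) * Real.Gamma (1 / 8) :=
    Real.integral_rpow_mul_exp_neg_mul_Ioi (by norm_num) hr0
  set K : ℝ := ((n : ℝ) ^ 2) ^ (-(1 / 8) : ℝ) * Real.exp (-((n : ℝ) ^ 2 * z / 2)) with hK
  have hK0 : 0 ≤ K := by positivity
  have hmaj : IntegrableOn (fun w : ℝ => K * (w ^ ((1 / 8 : ℝ) - 1) * Real.exp (-(r * w)))) (Set.Ioi z) :=
    (hint.mono_set (Set.Ioi_subset_Ioi hz.le)).const_mul K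
  have hle : ∀ w ∈ Set.Ioi z, w ^ (-(3 / 4) : ℝ) * kap ((n : ℝ) ^ 2 * w) ≤
      K * (w ^ ((1 / 8 : ℝ) - 1) * Real.exp (-(r * w))) := by
    intro w hw
    have hzw : z < w := hw
    have hw0 : 0 < w := hz.trans hzw
    unfold kap
    rw [Real.mul_rpow (by positivity) hw0.le, hK]
    have e1 : w ^ ((1 / 8 : ℝ) - 1) = w ^ (-(3 / 4) : ℝ) * w ^ (-(1 / 8) : ℝ) := by
      rw [← Real.rpow_add hw0]
      norm_num
    have e2 : Real.exp (-((n : ℝ) ^ 2 * w)) ≤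
        Real.exp (-((n : ℝ) ^ 2 * z / 2)) * Real.exp (-(r * w)) := by
      rw [← Real.exp_add]
      apply Real.exp_le_exp.2
      rw [hr]
      have : (n : ℝ) ^ 2 * z ≤ (n : ℝ) ^ 2 * w := by
        apply mul_le_mul_of_nonneg_left hzw.le (by positivity)
      nlinarith
    rw [e1]
    have h3 : 0 ≤ w ^ (-(3 / 4) : ℝ) * (((n : ℝ) ^ 2) ^ (-(1 / 8) : ℝ) * w ^ (-(1 / 8) : ℝ)) := by
      positivity
    calc w ^ (-(3 / 4) : ℝ) * (((n : ℝ) ^ 2) ^ (-(1 / 8) : ℝ) * w ^ (-(1 / 8) : ℝ) *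
          Real.exp (-((n : ℝ) ^ 2 * w)))
        = w ^ (-(3 / 4) : ℝ) * (((n : ℝ) ^ 2) ^ (-(1 / 8) : ℝ) * w ^ (-(1 / 8) : ℝ)) *
          Real.exp (-((n : ℝ) ^ 2 * w)) := by ring
      _ ≤ w ^ (-(3 / 4) : ℝ) * (((n : ℝ) ^ 2) ^ (-(1 / 8) : ℝ) * w ^ (-(1 / 8) : ℝ)) *
          (Real.exp (-((n : ℝ) ^ 2 * z / 2)) * Real.exp (-(r * w))) :=
          mul_le_mul_of_nonneg_left e2 h3
      _ = _ := by ring
  have hmeas : AEStronglyMeasurable (fun w : ℝ => w ^ (-(3 / 4) : ℝ) * kap ((n : ℝ) ^ 2 * w))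
      (volume.restrict (Set.Ioi z)) := by
    unfold kap
    apply Measurable.aestronglyMeasurable
    fun_prop
  have hI : IntegrableOn (fun w : ℝ => w ^ (-(3 / 4) : ℝ) * kap ((n : ℝ) ^ 2 * w)) (Set.Ioi z) := by
    refine Integrable.mono' hmaj hmeas ?_
    filter_upwards [ae_restrict_mem measurableSet_Ioi] with w hw
    have hw0 : 0 < w := hz.trans hw
    rw [Real.norm_eq_abs, abs_of_nonneg (by unfold kap; positivity)]
    exact hle w hw
  refine ⟨hI, ?_⟩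
  calc ∫ w in Set.Ioi z, w ^ (-(3 / 4) : ℝ) * kap ((n : ℝ) ^ 2 * w)
      ≤ ∫ w in Set.Ioi z, K * (w ^ ((1 / 8 : ℝ) - 1) * Real.exp (-(r * w))) :=
        setIntegral_mono_on hI hmaj measurableSet_Ioi hle
    _ = K * ∫ w in Set.Ioi z, w ^ ((1 / 8 : ℝ) - 1) * Real.exp (-(r * w)) := by
        rw [integral_const_mul]
    _ ≤ K * ∫ w in Set.Ioi (0 : ℝ), w ^ ((1 / 8 : ℝ) - 1) * Real.exp (-(r * w)) := by
        apply mul_le_mul_of_nonneg_left _ hK0
        apply setIntegral_mono_set hint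
        · filter_upwards [ae_restrict_mem measurableSet_Ioi] with w hw
          have hw0 : (0 : ℝ) < w := hw
          simp only [Pi.zero_apply]
          positivity
        · exact (Set.Ioi_subset_Ioi hz.le).eventuallyLE
    _ = (2 : ℝ) ^ (1 / 8 : ℝ) * Real.Gamma (1 / 8) / Real.sqrt n *
        Real.exp (-((n : ℝ) ^ 2 * z / 2)) := by
        rw [hval, hK, hr]
        have e1 : (1 / ((n : ℝ) ^ 2 / 2)) ^ (1 / 8 : ℝ) = 2 ^ (1 / 8 : ℝ) * ((n : ℝ) ^ 2) ^ (-(1 / 8) : ℝ) := by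
          rw [Real.rpow_neg (by positivity), ← Real.inv_rpow (by positivity),
            ← Real.mul_rpow (by norm_num) (by positivity)]
          congr 1
          field_simp
        have e2 : ((n : ℝ) ^ 2) ^ (-(1 / 8) : ℝ) * ((n : ℝ) ^ 2) ^ (-(1 / 8) : ℝ) = 1 / Real.sqrt n := by
          rw [← Real.rpow_add (by positivity), ← Real.rpow_natCast, ← Real.rpow_mul hn0.le,
            Real.sqrt_eq_rpow, one_div ((n : ℝ) ^ (1 / 2 : ℝ)), ← Real.rpow_neg hn0.le]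
          congr 1
          norm_num
        rw [e1]
        calc _ = 2 ^ (1 / 8 : ℝ) * Real.Gamma (1 / 8) *
              (((n : ℝ) ^ 2) ^ (-(1 / 8) : ℝ) * ((n : ℝ) ^ 2) ^ (-(1 / 8) : ℝ)) *
              Real.exp (-((n : ℝ) ^ 2 * z / 2)) := by ring
          _ = _ := by rw [e2]; ring

theorem t_VSM : S_VSM := by
  refine ⟨65, by norm_num, ?_⟩
  intro X N hX
  have hx : (1 : ℝ) ≤ X := by exact_mod_cast hX
  have hx0 : (0 : ℝ) < X := by linarith
  have hterm : ∀ v ∈ Icc 1 N, 1 / (v : ℝ) * Real.exp (-((v : ℝ) ^ 4 / (32 * X))) ≤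
      (if v ≤ X then 1 / (v : ℝ) else 0) + 32 * ((v : ℝ) ^ 2)⁻¹ := by
    intro v hv
    have hv1 : (1 : ℝ) ≤ v := by exact_mod_cast (mem_Icc.1 hv).1
    have hv0 : (0 : ℝ) < v := by linarith
    by_cases h : v ≤ X
    · rw [if_pos h]
      have h1 : Real.exp (-((v : ℝ) ^ 4 / (32 * X))) ≤ 1 := Real.exp_le_one_iff.2 (by
        have : 0 ≤ (v : ℝ) ^ 4 / (32 * X) := by positivity
        linarith)
      have h2 : 1 / (v : ℝ) * Real.exp (-((v : ℝ) ^ 4 / (32 * X))) ≤ 1 / (v : ℝ) * 1 := by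
        gcongr
      have h3 : 0 ≤ 32 * ((v : ℝ) ^ 2)⁻¹ := by positivity
      linarith
    · rw [if_neg h]
      have hXv : (X : ℝ) ≤ v := by
        have : X ≤ v := by omega
        exact_mod_cast this
      have ht : 0 < (v : ℝ) ^ 4 / (32 * X) := by positivity
      have h1 : Real.exp (-((v : ℝ) ^ 4 / (32 * X))) ≤ 1 / ((v : ℝ) ^ 4 / (32 * X)) := by
        rw [Real.exp_neg, one_div]
        apply inv_anti₀ ht
        have := Real.add_one_le_exp ((v : ℝ) ^ 4 / (32 * X))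
        linarith
      calc 1 / (v : ℝ) * Real.exp (-((v : ℝ) ^ 4 / (32 * X)))
          ≤ 1 / (v : ℝ) * (1 / ((v : ℝ) ^ 4 / (32 * X))) := by gcongr
        _ = 32 * X / (v : ℝ) ^ 5 := by field_simp
        _ ≤ 32 * v ^ 3 / (v : ℝ) ^ 5 := by
            gcongr
            calc (X : ℝ) ≤ v := hXv
              _ = (v : ℝ) ^ 1 := (pow_one _).symm
              _ ≤ (v : ℝ) ^ 3 := pow_le_pow_right₀ hv1 (by norm_num)
        _ = 0 + 32 * ((v : ℝ) ^ 2)⁻¹ := by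
            field_simp
            ring
  have h1 : ∑ v ∈ Icc 1 N, (if v ≤ X then 1 / (v : ℝ) else 0) ≤ 1 + Real.log X := by
    rw [← sum_filter]
    calc ∑ v ∈ (Icc 1 N).filter (fun v => v ≤ X), 1 / (v : ℝ) ≤ ∑ v ∈ Icc 1 X, 1 / (v : ℝ) := by
          apply sum_le_sum_of_subset_of_nonneg
          · intro v hv
            rw [mem_filter, mem_Icc] at hv
            rw [mem_Icc]
            exact ⟨hv.1.1, hv.2⟩
          · intro v _ _
            positivity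
      _ = ((harmonic X : ℚ) : ℝ) := by
          rw [harmonic_eq_sum_Icc]
          push_cast
          simp only [one_div]
      _ ≤ 1 + Real.log X := harmonic_le_one_add_log X
  have h2 : ∑ v ∈ Icc 1 N, ((v : ℝ) ^ 2)⁻¹ ≤ 2 := by
    have h := sum_Ioo_inv_sq_le (α := ℝ) 0 (N + 1)
    have e : Ioo 0 (N + 1) = Icc 1 N := by
      ext v
      simp only [mem_Ioo, mem_Icc]
      omega
    rw [e] at h
    simpa using h
  have hlog : 0 ≤ Real.log X := Real.log_nonneg hx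
  calc _ ≤ ∑ v ∈ Icc 1 N, ((if v ≤ X then 1 / (v : ℝ) else 0) + 32 * ((v : ℝ) ^ 2)⁻¹) :=
        sum_le_sum hterm
    _ = ∑ v ∈ Icc 1 N, (if v ≤ X then 1 / (v : ℝ) else 0) + 32 * ∑ v ∈ Icc 1 N, ((v : ℝ) ^ 2)⁻¹ := by
        rw [sum_add_distrib, mul_sum]
    _ ≤ (1 + Real.log X) + 32 * 2 := by
        gcongr
    _ ≤ 65 * lg X := by
        unfold lg
        linarith

end

end Pool.Agent.H75.BR
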