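import Pool.Agent.H28.BR.Stm2
import Pool.Agent.H75.BR.BHR

set_option autoImplicit false

/-! Project BR2: the twisted non-squares with the tent function. -/

namespace Pool.Agent.H75.BR

open Finset Filter Topology MeasureTheory Pool.Agent.H306R2.RZ Pool.Agent.H306R2.RG
  Pool.Agent.Q122.FM Pool.Agent.Q122.MB Pool.Agent.H28.BR Pool.Agent.H28.BR2
open Pool.Agent.Helper112 (ee)

noncomputable section

theorem ee_conj (x : ℝ) : (starRingEnd ℂ) (ee x) = ee (-x) := by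
  unfold Pool.Agent.Helper112.ee
  rw [← Complex.exp_conj]
  congr 1
  simp only [map_mul, Complex.conj_ofReal, Complex.conj_I]
  rw [show (starRingEnd ℂ) (2 : ℂ) = 2 from Complex.conj_ofNat 2]
  push_cast
  ring

theorem norm_sum_neg (D : Finset ℕ) (E : ℕ → ℝ) (θ : ℝ) :
    ‖∑ d ∈ D, ee (-θ * d) * (E d : ℂ)‖ = ‖∑ d ∈ D, ee (θ * d) * (E d : ℂ)‖ := by
  rw [← Complex.norm_conj (∑ d ∈ D, ee (θ * d) * (E d : ℂ)), map_sum]
  congr 1
  refine sum_congr rfl fun d _ => ?_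
  rw [map_mul, ee_conj, Complex.conj_ofReal]
  congr 2
  ring

theorem NL_eight {α c : ℝ} {τ : ℕ} (h : NL α c τ) : NL (8 * α) (c / 8 ^ τ) τ := by
  obtain ⟨hc, hτ, hα⟩ := h
  refine ⟨by positivity, hτ, fun k hk => ?_⟩
  have h1 := hα (8 * k) (by omega)
  have e1 : c / 8 ^ τ / (k : ℝ) ^ τ = c / (((8 * k : ℕ) : ℝ)) ^ τ := by
    push_cast
    rw [mul_pow, div_div]
  have e2 : (k : ℝ) * (8 * α) = ((8 * k : ℕ) : ℝ) * α := by
    push_cast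
    ring
  rw [e1, e2]
  exact h1

theorem cT_abs_le (Δ : ℝ) (h : ℤ) (h0 : h ≠ 0) : |cT Δ h| ≤ 1 / (h : ℝ) ^ 2 := by
  unfold cT
  rw [if_neg h0]
  have hh : (h : ℝ) ≠ 0 := by exact_mod_cast h0
  have hh2 : 0 < (h : ℝ) ^ 2 := by positivity
  have hc1 := Real.cos_le_one (2 * Real.pi * h * Δ)
  have hc2 := Real.neg_one_le_cos (2 * Real.pi * h * Δ)
  have hpi : (1 : ℝ) ≤ Real.pi ^ 2 := by
    have := Real.pi_gt_three
    nlinarith
  rw [abs_of_nonneg (by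
    apply div_nonneg (by linarith)
    positivity)]
  rw [div_le_div_iff₀ (by positivity) hh2]
  nlinarith

/-- the weights -/
def wt (h : ℤ) : ℝ := (if h = 0 then 1 else 0) + |(h : ℝ)| ^ (-(13 / 8) : ℝ)

theorem wt_summable : Summable wt := by
  unfold wt
  refine Summable.add ?_ ?_
  · exact (hasSum_ite_eq (0 : ℤ) (1 : ℝ)).summable
  · exact Real.summable_abs_int_rpow (b := 13 / 8) (by norm_num)

theorem wt_nonneg (h : ℤ) : 0 ≤ wt h := by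
  unfold wt
  have h1 : 0 ≤ |(h : ℝ)| ^ (-(13 / 8) : ℝ) := by positivity
  split_ifs <;> linarith

/-- bounds for the logarithms -/
theorem lg3_bounds (τ : ℕ) (hτ : 1 ≤ τ) (X : ℕ) (hX : 1 ≤ X) :
    lg X ^ 3 * (X : ℝ) ^ (7 / 8 : ℝ) ≤ 49 ^ 3 * (X : ℝ) ^ (1 - 1 / (16 * (τ : ℝ))) ∧
    lg X ^ 3 * ((X : ℝ) * (X : ℝ) ^ (-(3 / (16 * (τ : ℝ))))) ≤
      (1 + 24 * τ) ^ 3 * (X : ℝ) ^ (1 - 1 / (16 * (τ : ℝ))) := by
  have hx : (1 : ℝ) ≤ X := by exact_mod_cast hX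
  have hx0 : (0 : ℝ) < X := by linarith
  have hτ1 : (1 : ℝ) ≤ τ := by exact_mod_cast hτ
  have hτ0 : (0 : ℝ) < τ := by linarith
  have hlg : 1 ≤ lg X := lg_one_le hX
  constructor
  · have h1 := lg_le_rpow (1 / 48) (by norm_num) X hX
    have hexp2 : (15 / 16 : ℝ) ≤ 1 - 1 / (16 * (τ : ℝ)) := by
      have : 1 / (16 * (τ : ℝ)) ≤ 1 / 16 := by
        apply one_div_le_one_div_of_le (by norm_num)
        linarith
      linarith
    calc lg X ^ 3 * (X : ℝ) ^ (7 / 8 : ℝ)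
        ≤ ((1 + 1 / (1 / 48)) * (X : ℝ) ^ (1 / 48 : ℝ)) ^ 3 * (X : ℝ) ^ (7 / 8 : ℝ) := by gcongr
      _ = 49 ^ 3 * ((X : ℝ) ^ (1 / 48 : ℝ) * (X : ℝ) ^ (1 / 48 : ℝ) * (X : ℝ) ^ (1 / 48 : ℝ) *
          (X : ℝ) ^ (7 / 8 : ℝ)) := by
          norm_num
          ring
      _ = 49 ^ 3 * (X : ℝ) ^ (15 / 16 : ℝ) := by
          rw [← Real.rpow_add hx0, ← Real.rpow_add hx0, ← Real.rpow_add hx0]
          norm_num
      _ ≤ 49 ^ 3 * (X : ℝ) ^ (1 - 1 / (16 * (τ : ℝ))) := by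
          gcongr
  · have h1 := lg_le_rpow (1 / (24 * (τ : ℝ))) (by positivity) X hX
    have e0 : 1 + 1 / (1 / (24 * (τ : ℝ))) = 1 + 24 * τ := by field_simp
    rw [e0] at h1
    calc lg X ^ 3 * ((X : ℝ) * (X : ℝ) ^ (-(3 / (16 * (τ : ℝ)))))
        ≤ ((1 + 24 * τ) * (X : ℝ) ^ (1 / (24 * (τ : ℝ)))) ^ 3 *
          ((X : ℝ) * (X : ℝ) ^ (-(3 / (16 * (τ : ℝ))))) := by gcongr
      _ = (1 + 24 * τ) ^ 3 * ((X : ℝ) ^ (1 / (24 * (τ : ℝ))) * (X : ℝ) ^ (1 / (24 * (τ : ℝ))) *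
          (X : ℝ) ^ (1 / (24 * (τ : ℝ))) * ((X : ℝ) ^ (1 : ℝ) * (X : ℝ) ^ (-(3 / (16 * (τ : ℝ)))))) := by
          rw [Real.rpow_one]
          ring
      _ = _ := by
          rw [← Real.rpow_add hx0, ← Real.rpow_add hx0, ← Real.rpow_add hx0, ← Real.rpow_add hx0]
          congr 2
          field_simp
          ring

theorem t_WNS (clb : S_CLB) : S_WNS := by
  intro α c τ hNL
  obtain ⟨C, hC, clb⟩ := clb
  have hNL8 := NL_eight hNL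
  obtain ⟨hc8, hτ, hα8⟩ := hNL8
  have hτ1 : (1 : ℝ) ≤ τ := by exact_mod_cast hτ
  have hτ0 : (0 : ℝ) < τ := by linarith
  set c1 : ℝ := (c / 8 ^ τ) ^ (-(3 / (8 * (τ : ℝ)))) with hc1
  have hc10 : 0 < c1 := by positivity
  set M : ℝ := C * ((1 + 24 * τ) ^ 3 * c1 + 49 ^ 3) with hM
  have hM0 : 0 < M := by positivity
  have hMC : C * 49 ^ 3 ≤ M := by
    rw [hM]
    apply mul_le_mul_of_nonneg_left _ hC.le
    have : 0 ≤ (1 + 24 * (τ : ℝ)) ^ 3 * c1 := by positivity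
    linarith
  set W : ℝ := ∑' h : ℤ, wt h with hW
  have hW0 : 0 ≤ W := tsum_nonneg wt_nonneg
  have hδ1 : 1 / (16 * (τ : ℝ)) ≤ 1 := by
    rw [div_le_one (by positivity)]
    linarith
  refine ⟨M * (W + 1), 1 / (16 * (τ : ℝ)), by positivity, by positivity, hδ1, ?_⟩
  intro a ha e he β hβ B hB hBs c' hc'8 hc' X N hX hBX Δ γ hΔ0 hΔ1
  have hX1 : 1 ≤ X := by omega
  have hx : (1 : ℝ) ≤ X := by exact_mod_cast hX1
  have hx0 : (0 : ℝ) < X := by linarith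
  obtain ⟨clb1, clb2⟩ := clb a ha e he β hβ B hB hBs c' hc'8 hc' X N hX hBX
  set D : Finset ℕ := (Icc 1 X).filter (fun d => d % 8 = c' ∧ Squarefree d) with hD
  set E : ℕ → ℝ := fun d => EBN e a β B N d (1 / (8 * (d : ℝ))) with hE
  set Y : ℝ := (B : ℝ) ^ 4 * (X : ℝ) ^ (1 - 1 / (16 * (τ : ℝ))) with hY
  have hB0 : (0 : ℝ) < B := by exact_mod_cast hB
  have hY0 : 0 < Y := by positivity
  obtain ⟨lb1, lb2⟩ := lg3_bounds τ hτ X hX1
  -- positive frequencies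
  have hpos : ∀ k : ℕ, 1 ≤ k → ‖∑ d ∈ D, ee ((k : ℝ) * (8 * α) * d) * (E d : ℂ)‖ ≤
      M * Y * (k : ℝ) ^ (3 / 8 : ℝ) := by
    intro k hk
    obtain ⟨j, rfl⟩ : ∃ j, k = j + 1 := ⟨k - 1, by omega⟩
    have hj1 : (1 : ℝ) ≤ (j : ℝ) + 1 := by
      have : (0 : ℝ) ≤ j := Nat.cast_nonneg j
      linarith
    have hj0 : (0 : ℝ) < (j : ℝ) + 1 := by linarith
    push_cast
    obtain ⟨b, q, hq, hqX, hcop, hb1, hb2⟩ := dirichlet (((j : ℝ) + 1) * (8 * α)) X hX1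
    have hApp : App (((j : ℝ) + 1) * (8 * α)) b q X := by
      have hq0 : (0 : ℝ) < q := by exact_mod_cast hq
      refine ⟨hq, by omega, hcop, hb1.trans ?_⟩
      gcongr
      norm_num
    have h1 := clb1 (((j : ℝ) + 1) * (8 * α)) b q hApp
    have h2 := q_lower (8 * α) (c / 8 ^ τ) τ hc8 hτ hα8 X j q b hX1 hq hb2
    have e1 : ((1 / 8 : ℝ) - 1 / 2) = -(3 / 8) := by norm_num
    rw [e1] at h2
    have hp : 1 ≤ ((j : ℝ) + 1) ^ (3 / 8 : ℝ) := Real.one_le_rpow hj1 (by norm_num)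
    have hlg : 1 ≤ lg X := lg_one_le hX1
    have h3 : lg X ^ 3 * ((X : ℝ) * (q : ℝ) ^ (-(3 / 8) : ℝ)) ≤
        (1 + 24 * τ) ^ 3 * (X : ℝ) ^ (1 - 1 / (16 * (τ : ℝ))) * c1 * ((j : ℝ) + 1) ^ (3 / 8 : ℝ) := by
      calc lg X ^ 3 * ((X : ℝ) * (q : ℝ) ^ (-(3 / 8) : ℝ))
          ≤ lg X ^ 3 * ((X : ℝ) * (c1 * (X : ℝ) ^ (-(3 / (16 * (τ : ℝ)))) *
            ((j : ℝ) + 1) ^ (3 / 8 : ℝ))) := by gcongr
        _ = lg X ^ 3 * ((X : ℝ) * (X : ℝ) ^ (-(3 / (16 * (τ : ℝ))))) * (c1 *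
            ((j : ℝ) + 1) ^ (3 / 8 : ℝ)) := by ring
        _ ≤ (1 + 24 * τ) ^ 3 * (X : ℝ) ^ (1 - 1 / (16 * (τ : ℝ))) * (c1 *
            ((j : ℝ) + 1) ^ (3 / 8 : ℝ)) := by gcongr
        _ = _ := by ring
    have h4 : lg X ^ 3 * (X : ℝ) ^ (7 / 8 : ℝ) ≤
        49 ^ 3 * (X : ℝ) ^ (1 - 1 / (16 * (τ : ℝ))) * ((j : ℝ) + 1) ^ (3 / 8 : ℝ) :=
      lb1.trans (le_mul_of_one_le_right (by positivity) hp)
    calc ‖∑ d ∈ D, ee (((j : ℝ) + 1) * (8 * α) * d) * (E d : ℂ)‖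
        ≤ C * (B : ℝ) ^ 4 * lg X ^ 3 * ((X : ℝ) * (q : ℝ) ^ (-(3 / 8) : ℝ) + (X : ℝ) ^ (7 / 8 : ℝ)) := h1
      _ = C * (B : ℝ) ^ 4 * (lg X ^ 3 * ((X : ℝ) * (q : ℝ) ^ (-(3 / 8) : ℝ)) +
          lg X ^ 3 * (X : ℝ) ^ (7 / 8 : ℝ)) := by ring
      _ ≤ C * (B : ℝ) ^ 4 * ((1 + 24 * τ) ^ 3 * (X : ℝ) ^ (1 - 1 / (16 * (τ : ℝ))) * c1 *
            ((j : ℝ) + 1) ^ (3 / 8 : ℝ) +
          49 ^ 3 * (X : ℝ) ^ (1 - 1 / (16 * (τ : ℝ))) * ((j : ℝ) + 1) ^ (3 / 8 : ℝ)) := by gcongr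
      _ = M * Y * ((j : ℝ) + 1) ^ (3 / 8 : ℝ) := by
          rw [hM, hY]
          ring
  -- the frequency zero
  have hzero : |∑ d ∈ D, E d| ≤ M * Y := by
    calc |∑ d ∈ D, E d| ≤ C * (B : ℝ) ^ 4 * lg X ^ 3 * (X : ℝ) ^ (7 / 8 : ℝ) := clb2
      _ = C * (B : ℝ) ^ 4 * (lg X ^ 3 * (X : ℝ) ^ (7 / 8 : ℝ)) := by ring
      _ ≤ C * (B : ℝ) ^ 4 * (49 ^ 3 * (X : ℝ) ^ (1 - 1 / (16 * (τ : ℝ)))) := by gcongr
      _ = C * 49 ^ 3 * Y := by rw [hY]; ring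
      _ ≤ M * Y := by gcongr
  -- all frequencies
  have hall : ∀ h : ℤ, |cT Δ h| * ‖∑ d ∈ D, ee ((h : ℝ) * (8 * α) * d) * (E d : ℂ)‖ ≤
      M * Y * wt h := by
    intro h
    rcases lt_trichotomy h 0 with hh | hh | hh
    · obtain ⟨k, hk⟩ : ∃ k : ℕ, h = -(k : ℤ) := ⟨h.natAbs, by omega⟩
      have hk1 : 1 ≤ k := by omega
      have hk0 : (0 : ℝ) < k := by exact_mod_cast hk1
      have e1 : (h : ℝ) * (8 * α) = -((k : ℝ) * (8 * α)) := by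
        rw [hk]
        push_cast
        ring
      have e2 : |(h : ℝ)| = k := by
        rw [hk]
        push_cast
        rw [abs_neg, abs_of_pos hk0]
      have e3 : (h : ℝ) ^ 2 = (k : ℝ) ^ 2 := by rw [← sq_abs, e2]
      rw [e1, norm_sum_neg]
      calc _ ≤ 1 / (h : ℝ) ^ 2 * (M * Y * (k : ℝ) ^ (3 / 8 : ℝ)) :=
            mul_le_mul (cT_abs_le Δ h hh.ne) (hpos k hk1) (norm_nonneg _) (by positivity)
        _ = M * Y * ((k : ℝ) ^ (3 / 8 : ℝ) * (k : ℝ) ^ (-(2 : ℝ))) := by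
            rw [e3, Real.rpow_neg hk0.le]
            norm_num
            ring
        _ = M * Y * wt h := by
            rw [← Real.rpow_add hk0]
            unfold wt
            rw [if_neg hh.ne, e2, zero_add]
            norm_num
    · subst hh
      have e1 : |cT Δ 0| ≤ 1 := by
        unfold cT
        rw [if_pos rfl, abs_of_nonneg (by positivity)]
        nlinarith
      have e2 : ‖∑ d ∈ D, ee (((0 : ℤ) : ℝ) * (8 * α) * d) * (E d : ℂ)‖ = |∑ d ∈ D, E d| := by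
        have : ∑ d ∈ D, ee (((0 : ℤ) : ℝ) * (8 * α) * d) * (E d : ℂ) = ((∑ d ∈ D, E d : ℝ) : ℂ) := by
          push_cast
          refine sum_congr rfl fun d _ => ?_
          rw [show ((0 : ℝ) * (8 * α) * (d : ℝ)) = 0 by ring, ee_zero, one_mul]
        rw [this, Complex.norm_real, Real.norm_eq_abs]
      rw [e2]
      have e3 : (1 : ℝ) ≤ wt 0 := by
        unfold wt
        rw [if_pos rfl]
        have : 0 ≤ |((0 : ℤ) : ℝ)| ^ (-(13 / 8) : ℝ) := by positivity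
        linarith
      calc |cT Δ 0| * |∑ d ∈ D, E d| ≤ 1 * (M * Y) :=
            mul_le_mul e1 hzero (abs_nonneg _) zero_le_one
        _ = M * Y * 1 := by ring
        _ ≤ M * Y * wt 0 := by gcongr
    · obtain ⟨k, hk⟩ : ∃ k : ℕ, h = (k : ℤ) := ⟨h.natAbs, by omega⟩
      have hk1 : 1 ≤ k := by omega
      have hk0 : (0 : ℝ) < k := by exact_mod_cast hk1
      have e0 : (h : ℝ) = k := by
        rw [hk]
        push_cast
        rfl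
      have e2 : |(h : ℝ)| = k := by
        rw [e0, abs_of_pos hk0]
      calc _ ≤ 1 / (h : ℝ) ^ 2 * (M * Y * (k : ℝ) ^ (3 / 8 : ℝ)) := by
            refine mul_le_mul (cT_abs_le Δ h hh.ne') ?_ (norm_nonneg _) (by positivity)
            rw [e0]
            exact hpos k hk1
        _ = M * Y * ((k : ℝ) ^ (3 / 8 : ℝ) * (k : ℝ) ^ (-(2 : ℝ))) := by
            rw [e0, Real.rpow_neg hk0.le]
            norm_num
            ring
        _ = M * Y * wt h := by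
            rw [← Real.rpow_add hk0]
            unfold wt
            rw [if_neg hh.ne', e2, zero_add]
            norm_num
  -- the Fourier expansion
  have hF : ((∑ d ∈ D, tnt Δ (8 * α * d + γ) * E d : ℝ) : ℂ) =
      ∑' h : ℤ, (cT Δ h : ℂ) * ee (h * γ) * ∑ d ∈ D, ee ((h : ℝ) * (8 * α) * d) * (E d : ℂ) := by
    have h1 : ∀ h : ℤ, (cT Δ h : ℂ) * ee (h * γ) * ∑ d ∈ D, ee ((h : ℝ) * (8 * α) * d) * (E d : ℂ) =
        ∑ d ∈ D, (cT Δ h : ℂ) * ee (h * (8 * α * d + γ)) * (E d : ℂ) := by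
      intro h
      rw [mul_sum]
      refine sum_congr rfl fun d _ => ?_
      have : (h : ℝ) * (8 * α * d + γ) = h * γ + (h : ℝ) * (8 * α) * d := by ring
      rw [this, ee_add]
      ring
    simp only [h1]
    have hs := Summable.tsum_finsetSum (s := D)
      (f := fun (d : ℕ) (h : ℤ) => (cT Δ h : ℂ) * ee (h * (8 * α * d + γ)) * (E d : ℂ))
      (fun d _ => (cT_ee_summable Δ (8 * α * d + γ)).mul_right _)
    rw [hs]
    push_cast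
    refine sum_congr rfl fun d _ => ?_
    rw [tsum_mul_right, tnt_fourier]
  have hfin : ‖((∑ d ∈ D, tnt Δ (8 * α * d + γ) * E d : ℝ) : ℂ)‖ ≤ M * Y * W := by
    rw [hF]
    refine tsum_of_norm_bounded (wt_summable.hasSum.mul_left (M * Y)) fun h => ?_
    rw [norm_mul, norm_mul, norm_ee, mul_one, Complex.norm_real, Real.norm_eq_abs]
    exact hall h
  rw [Complex.norm_real, Real.norm_eq_abs] at hfin
  calc |∑ d ∈ D, tnt Δ (8 * α * d + γ) * E d| ≤ M * Y * W := hfin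
    _ ≤ M * Y * (W + 1) := by
        apply mul_le_mul_of_nonneg_left _ (by positivity)
        linarith
    _ = M * (W + 1) * (B : ℝ) ^ 4 * (X : ℝ) ^ (1 - 1 / (16 * (τ : ℝ))) := by
        rw [hY]
        ring

end

end Pool.Agent.H75.BR
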