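import Pool.Agent.H28.BR.Stm
import Pool.Graph.R_pool_sql_team_seeded_3997aac3.Q122.FM.COR

set_option autoImplicit false

/-! Project BR, module POS: positive central values on Bohr sets. -/

namespace Pool.Agent.H75.BR

open Finset Filter Topology MeasureTheory Pool.Agent.H306R2.RZ Pool.Agent.H306R2.RG
  Pool.Agent.Q122.FM Pool.Agent.H28.BR
open Pool.Agent.Helper112 (ee)

noncomputable section

/-- `B₂(fract x) / 2` -/
def F2 (x : ℝ) : ℝ := (Int.fract x ^ 2 - Int.fract x + 1 / 6) / 2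

lemma F2_hasSum (x : ℝ) :
    HasSum (fun n : ℕ => 1 / (n : ℝ) ^ 2 * Real.cos (2 * Real.pi * n * x))
      (2 * Real.pi ^ 2 * F2 x) := by
  have h := hasSum_one_div_nat_pow_mul_cos (k := 1) one_ne_zero (x := Int.fract x)
    ⟨Int.fract_nonneg x, (Int.fract_lt_one x).le⟩
  have e1 : (fun n : ℕ => 1 / (n : ℝ) ^ (2 * 1) * Real.cos (2 * Real.pi * n * Int.fract x)) =
      fun n : ℕ => 1 / (n : ℝ) ^ 2 * Real.cos (2 * Real.pi * n * x) := by
    funext n
    congr 1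
    have e2 : 2 * Real.pi * n * x = 2 * Real.pi * n * Int.fract x +
        ((n * ⌊x⌋ : ℤ) : ℝ) * (2 * Real.pi) := by
      conv_lhs => rw [← Int.floor_add_fract x]
      push_cast
      ring
    rw [e2, Real.cos_add_int_mul_two_pi]
  rw [e1] at h
  convert h using 1
  have e3 : (Polynomial.map (algebraMap ℚ ℝ) (Polynomial.bernoulli (2 * 1))).eval (Int.fract x) =
      bernoulliFun 2 (Int.fract x) := rfl
  rw [e3, bernoulliFun_two]
  unfold F2
  norm_num
  ring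

/-- the tent function of height and half-width `Δ` -/
def tnt (Δ x : ℝ) : ℝ := Δ ^ 2 - (F2 (x + Δ) - 2 * F2 x + F2 (x - Δ))

lemma fract_of {x y : ℝ} (m : ℤ) (h : x = m + y) (h0 : 0 ≤ y) (h1 : y < 1) : Int.fract x = y := by
  rw [Int.fract_eq_iff]
  exact ⟨h0, h1, m, by rw [h]; ring⟩

lemma tnt_cases {Δ : ℝ} (h0 : 0 < Δ) (h1 : Δ ≤ 1 / 2) (x : ℝ) :
    (Int.fract x < Δ ∧ tnt Δ x = Δ - Int.fract x) ∨
    (1 - Δ < Int.fract x ∧ tnt Δ x = Int.fract x + Δ - 1) ∨ tnt Δ x = 0 := by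
  have hf := Int.floor_add_fract x
  have hy0 := Int.fract_nonneg x
  have hy1 := Int.fract_lt_one x
  set y := Int.fract x with hy
  set m := ⌊x⌋ with hm
  have hx : x = m + y := hf.symm
  rcases lt_or_ge y Δ with h | h
  · left
    refine ⟨h, ?_⟩
    have e1 : Int.fract (x + Δ) = y + Δ := fract_of m (by rw [hx]; ring) (by linarith) (by linarith)
    have e2 : Int.fract (x - Δ) = y - Δ + 1 :=
      fract_of (m - 1) (by rw [hx]; push_cast; ring) (by linarith) (by linarith)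
    unfold tnt F2
    rw [e1, e2, ← hy]
    ring
  rcases lt_or_ge (1 - Δ) y with h' | h'
  · right; left
    refine ⟨h', ?_⟩
    have e1 : Int.fract (x + Δ) = y + Δ - 1 :=
      fract_of (m + 1) (by rw [hx]; push_cast; ring) (by linarith) (by linarith)
    have e2 : Int.fract (x - Δ) = y - Δ := fract_of m (by rw [hx]; ring) (by linarith) (by linarith)
    unfold tnt F2
    rw [e1, e2, ← hy]
    ring
  · right; right
    have e2 : Int.fract (x - Δ) = y - Δ := fract_of m (by rw [hx]; ring) (by linarith) (by linarith)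
    rcases eq_or_lt_of_le h' with h'' | h''
    · have e1 : Int.fract (x + Δ) = 0 :=
        fract_of (m + 1) (by rw [hx, h'']; push_cast; ring) le_rfl one_pos
      unfold tnt F2
      rw [e1, e2, ← hy, h'']
      ring
    · have e1 : Int.fract (x + Δ) = y + Δ :=
        fract_of m (by rw [hx]; ring) (by linarith) (by linarith)
      unfold tnt F2
      rw [e1, e2, ← hy]
      ring

lemma tnt_nonneg {Δ : ℝ} (h0 : 0 < Δ) (h1 : Δ ≤ 1 / 2) (x : ℝ) : 0 ≤ tnt Δ x := by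
  rcases tnt_cases h0 h1 x with ⟨h, e⟩ | ⟨h, e⟩ | e
  · rw [e]; linarith
  · rw [e]; linarith
  · rw [e]

lemma tnt_le {Δ : ℝ} (h0 : 0 < Δ) (h1 : Δ ≤ 1 / 2) (x : ℝ) : tnt Δ x ≤ 1 := by
  have hy0 := Int.fract_nonneg x
  have hy1 := Int.fract_lt_one x
  rcases tnt_cases h0 h1 x with ⟨h, e⟩ | ⟨h, e⟩ | e
  · rw [e]; linarith
  · rw [e]; linarith
  · rw [e]; norm_num

/-- the support of the shifted tent function -/
lemma tnt_supp {v : ℝ} (h0 : 0 < v) (h1 : v ≤ 1) (x : ℝ) (h : tnt (v / 2) (x - v / 2) ≠ 0) :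
    Int.fract x < v := by
  have hΔ0 : 0 < v / 2 := by linarith
  have hΔ1 : v / 2 ≤ 1 / 2 := by linarith
  have hf := Int.floor_add_fract (x - v / 2)
  have hy0 := Int.fract_nonneg (x - v / 2)
  have hy1 := Int.fract_lt_one (x - v / 2)
  set y := Int.fract (x - v / 2) with hy
  set m := ⌊x - v / 2⌋ with hm
  rcases tnt_cases hΔ0 hΔ1 (x - v / 2) with ⟨h', e⟩ | ⟨h', e⟩ | e
  · have : Int.fract x = y + v / 2 :=
      fract_of m (by linarith) (by linarith) (by linarith)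
    rw [this]; linarith
  · have : Int.fract x = y + v / 2 - 1 :=
      fract_of (m + 1) (by push_cast; linarith) (by linarith) (by linarith)
    rw [this]; linarith
  · exact absurd e h

/-- the Fourier coefficients of the tent function -/
def cT (Δ : ℝ) (h : ℤ) : ℝ :=
  if h = 0 then Δ ^ 2 else (1 - Real.cos (2 * Real.pi * h * Δ)) / (2 * Real.pi ^ 2 * (h : ℝ) ^ 2)

lemma cT_neg (Δ : ℝ) (h : ℤ) : cT Δ (-h) = cT Δ h := by
  unfold cT
  by_cases h0 : h = 0
  · simp [h0]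
  · rw [if_neg h0, if_neg (by simpa using h0)]
    congr 1
    · congr 1
      rw [← Real.cos_neg]
      congr 1
      push_cast
      ring
    · push_cast
      ring

lemma cT_summable (Δ : ℝ) : Summable (cT Δ) := by
  have h1 : Summable (fun h : ℤ => 1 / (h : ℝ) ^ 2) :=
    Real.summable_one_div_int_pow.mpr (by norm_num)
  have h2 : Summable (fun h : ℤ => (if h = 0 then Δ ^ 2 else 0) + 1 / Real.pi ^ 2 * (1 / (h : ℝ) ^ 2)) := by
    refine Summable.add ?_ (h1.mul_left _)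
    exact (hasSum_ite_eq (0 : ℤ) (Δ ^ 2)).summable
  refine Summable.of_norm_bounded h2 ?_
  intro h
  have hp : 0 < Real.pi ^ 2 := by positivity
  unfold cT
  by_cases h0 : h = 0
  · simp [h0]
  · rw [if_neg h0, if_neg h0, zero_add, Real.norm_eq_abs, abs_div]
    have hh : 0 < (h : ℝ) ^ 2 := by
      have : (h : ℝ) ≠ 0 := by exact_mod_cast h0
      positivity
    rw [abs_of_pos (show 0 < 2 * Real.pi ^ 2 * (h : ℝ) ^ 2 by positivity)]
    have h3 : |1 - Real.cos (2 * Real.pi * h * Δ)| ≤ 2 := by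
      rw [abs_le]
      constructor
      · linarith [Real.cos_le_one (2 * Real.pi * h * Δ)]
      · linarith [Real.neg_one_le_cos (2 * Real.pi * h * Δ)]
    rw [div_le_iff₀ (by positivity)]
    have e : 1 / Real.pi ^ 2 * (1 / (h : ℝ) ^ 2) * (2 * Real.pi ^ 2 * (h : ℝ) ^ 2) = 2 := by
      field_simp
    rw [e]
    exact h3

lemma norm_ee (x : ℝ) : ‖ee x‖ = 1 := by
  unfold Pool.Agent.Helper112.ee
  have : 2 * (Real.pi : ℂ) * (x : ℂ) * Complex.I = ((2 * Real.pi * x : ℝ) : ℂ) * Complex.I := by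
    push_cast; ring
  rw [this]
  exact Complex.norm_exp_ofReal_mul_I _

lemma ee_add (x y : ℝ) : ee (x + y) = ee x * ee y := by
  unfold Pool.Agent.Helper112.ee
  rw [← Complex.exp_add]
  congr 1
  push_cast
  ring

lemma ee_zero : ee 0 = 1 := by
  unfold Pool.Agent.Helper112.ee
  simp

lemma ee_add_neg (x : ℝ) : ee x + ee (-x) = ((2 * Real.cos (2 * Real.pi * x) : ℝ) : ℂ) := by
  unfold Pool.Agent.Helper112.ee
  rw [Complex.ofReal_mul, Complex.ofReal_cos, Complex.cos]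
  push_cast
  have e1 : 2 * (Real.pi : ℂ) * (-(x : ℂ)) * Complex.I = -(2 * Real.pi * x) * Complex.I := by ring
  rw [e1]
  ring

lemma cT_ee_summable (Δ x : ℝ) : Summable (fun h : ℤ => (cT Δ h : ℂ) * ee (h * x)) := by
  refine Summable.of_norm ?_
  have h1 : (fun h : ℤ => ‖(cT Δ h : ℂ) * ee (h * x)‖) = fun h : ℤ => |cT Δ h| := by
    funext h
    rw [norm_mul, norm_ee, mul_one, Complex.norm_real, Real.norm_eq_abs]
  rw [h1]
  exact (cT_summable Δ).abs

/-- the Fourier series of the tent function -/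
lemma tnt_fourier (Δ x : ℝ) : ∑' h : ℤ, (cT Δ h : ℂ) * ee (h * x) = (tnt Δ x : ℂ) := by
  -- the cosine series
  have h1 := F2_hasSum (x + Δ)
  have h2 := (F2_hasSum x).mul_left 2
  have h3 := F2_hasSum (x - Δ)
  have h4 := ((h1.sub h2).add h3).mul_left (-(1 / (2 * Real.pi ^ 2)))
  have hpi : Real.pi ≠ 0 := Real.pi_ne_zero
  have e4 : -(1 / (2 * Real.pi ^ 2)) * (2 * Real.pi ^ 2 * F2 (x + Δ) -
      2 * (2 * Real.pi ^ 2 * F2 x) + 2 * Real.pi ^ 2 * F2 (x - Δ)) = tnt Δ x - Δ ^ 2 := by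
    unfold tnt
    field_simp
    ring
  rw [e4] at h4
  have h5 : HasSum (fun n : ℕ => if n = 0 then 2 * Δ ^ 2 else 0) (2 * Δ ^ 2) :=
    hasSum_ite_eq (0 : ℕ) (2 * Δ ^ 2)
  have h6 := h4.add h5
  have e6 : tnt Δ x - Δ ^ 2 + 2 * Δ ^ 2 = tnt Δ x + Δ ^ 2 := by ring
  rw [e6] at h6
  -- the symmetric sum
  have h7 : HasSum (fun n : ℕ => (cT Δ (n : ℤ) : ℂ) * ee ((n : ℤ) * x) +
      (cT Δ (-(n : ℤ)) : ℂ) * ee ((-(n : ℤ) : ℤ) * x)) ((tnt Δ x + Δ ^ 2 : ℝ) : ℂ) := by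
    have h8 := Complex.hasSum_ofReal.mpr h6
    convert h8 using 1
    funext n
    rw [cT_neg, ← mul_add]
    have e7 : ((-(n : ℤ) : ℤ) : ℝ) * x = -(((n : ℤ) : ℝ) * x) := by push_cast; ring
    rw [e7, ee_add_neg, ← Complex.ofReal_mul]
    congr 1
    by_cases hn : n = 0
    · subst hn
      simp [cT]
      ring
    · have hn' : (n : ℤ) ≠ 0 := by exact_mod_cast hn
      unfold cT
      rw [if_neg hn', if_neg hn, add_zero]
      have hnr : (n : ℝ) ≠ 0 := by exact_mod_cast hn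
      have e8 : 2 * Real.pi * (n : ℝ) * (x + Δ) = 2 * Real.pi * n * x + 2 * Real.pi * n * Δ := by ring
      have e9 : 2 * Real.pi * (n : ℝ) * (x - Δ) = 2 * Real.pi * n * x - 2 * Real.pi * n * Δ := by ring
      rw [e8, e9, Real.cos_add, Real.cos_sub]
      have e10 : 2 * Real.pi * ((((n : ℤ) : ℝ)) * x) = 2 * Real.pi * n * x := by push_cast; ring
      have e11 : (((n : ℤ) : ℝ)) = (n : ℝ) := by push_cast; rfl
      rw [e10, e11]
      field_simp
      ring
  -- summability of the two halves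
  have hs := cT_ee_summable Δ x
  have hA : Summable (fun n : ℕ => (cT Δ (n : ℤ) : ℂ) * ee ((n : ℤ) * x)) :=
    hs.comp_injective Nat.cast_injective
  have hB : Summable (fun n : ℕ => (cT Δ (-(n : ℤ)) : ℂ) * ee ((-(n : ℤ) : ℤ) * x)) :=
    hs.comp_injective (i := fun n : ℕ => -(n : ℤ)) (by
      intro a b hab
      simpa using hab)
  have hAB := (hA.hasSum.add hB.hasSum).unique h7
  have hZ := HasSum.of_nat_of_neg (f := fun h : ℤ => (cT Δ h : ℂ) * ee (h * x)) hA.hasSum hB.hasSum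
  rw [hZ.tsum_eq, hAB]
  simp only [Int.cast_zero, zero_mul, ee_zero, mul_one]
  unfold cT
  rw [if_pos rfl]
  push_cast
  ring

theorem t_POS (hW : S_WIE) (hG : S_GWL) : S_POS := by
  intro α hα β v hv hv1
  obtain ⟨C, hC, hG⟩ := hG
  have hP := P1_pos
  have hpi := Real.pi_pos
  set Δ : ℝ := v / 2 with hΔ
  have hΔ0 : 0 < Δ := by rw [hΔ]; linarith
  have hΔ1 : Δ ≤ 1 / 2 := by rw [hΔ]; linarith
  set κ : ℝ := Δ ^ 2 * (3 / Real.pi ^ 2 * (P1 / 2)) with hκ
  have hκ0 : 0 < κ := by rw [hκ]; positivity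
  refine ⟨(κ / (2 * C)) ^ 2 / 8, by positivity, ?_⟩
  intro ε hε
  -- the weights
  have hsum : Summable (fun h : ℤ => ‖(cT Δ h : ℂ) * ee (h * (β - Δ))‖) := by
    exact (cT_ee_summable Δ (β - Δ)).norm
  have h1 := hW α hα ε hε (fun h : ℤ => (cT Δ h : ℂ) * ee (h * (β - Δ))) hsum
  have e1 : ∀ n : ℕ, ∑' h : ℤ, (cT Δ h : ℂ) * ee (h * (β - Δ)) * ee (h * (α * n)) =
      (tnt Δ (α * n + β - Δ) : ℂ) := by
    intro n
    rw [← tnt_fourier]
    refine tsum_congr fun h => ?_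
    rw [mul_assoc, ← ee_add]
    congr 2
    ring
  have e2 : (fun X : ℕ => (∑ n ∈ Ioc 1 X, (Lf ε n : ℂ) *
      ∑' h : ℤ, (cT Δ h : ℂ) * ee (h * (β - Δ)) * ee (h * (α * n))) / ((X : ℂ) * Real.log X)) =
      fun X : ℕ => (((∑ n ∈ Ioc 1 X, Lf ε n * tnt Δ (α * n + β - Δ)) / (X * Real.log X) : ℝ) : ℂ) := by
    funext X
    simp only [e1]
    push_cast
    rfl
  rw [e2] at h1
  have e3 : (cT Δ 0 : ℂ) * ee (((0 : ℤ) : ℝ) * (β - Δ)) * ((3 / Real.pi ^ 2 * (P1 / 2) : ℝ) : ℂ) =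
      ((κ : ℝ) : ℂ) := by
    rw [Int.cast_zero, zero_mul, ee_zero, mul_one]
    unfold cT
    rw [if_pos rfl, hκ]
    push_cast
    ring
  have h2 : Tendsto (fun X : ℕ => (∑ n ∈ Ioc 1 X, Lf ε n * tnt Δ (α * n + β - Δ)) /
      (X * Real.log X)) atTop (𝓝 κ) := by
    have h3 : Tendsto (fun X : ℕ => (((∑ n ∈ Ioc 1 X, Lf ε n * tnt Δ (α * n + β - Δ)) /
      (X * Real.log X) : ℝ) : ℂ)) atTop (𝓝 ((κ : ℝ) : ℂ)) := by
      rw [← e3]
      exact h1
    exact_mod_cast (Complex.continuous_re.tendsto _).comp h3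
  have h3 := h2.eventually (lt_mem_nhds (show κ / 2 < κ by linarith))
  filter_upwards [h3, eventually_ge_atTop 3] with X hX hX3
  have hX1 : 1 ≤ X := by omega
  have hXr : (3 : ℝ) ≤ X := by exact_mod_cast hX3
  have hlog : 1 ≤ Real.log X := by
    rw [Real.le_log_iff_exp_le (by linarith)]
    linarith [Real.exp_one_lt_d9]
  set T := (Ioc 1 X).filter (fun n : ℕ => Int.fract (α * n + β) < v ∧ 0 < Lf ε n) with hT
  have h4 := hG ε hε X T hX1 (filter_subset _ _)
  have h5 : ∑ n ∈ Ioc 1 X, Lf ε n * tnt Δ (α * n + β - Δ) ≤ ∑ n ∈ T, |Lf ε n| := by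
    have h6 : ∀ n ∈ Ioc 1 X, Lf ε n * tnt Δ (α * n + β - Δ) ≤
        if Int.fract (α * n + β) < v ∧ 0 < Lf ε n then |Lf ε n| else 0 := by
      intro n _
      have ht0 := tnt_nonneg hΔ0 hΔ1 (α * n + β - Δ)
      have ht1 := tnt_le hΔ0 hΔ1 (α * n + β - Δ)
      split_ifs with hh
      · rw [abs_of_pos hh.2]
        nlinarith [hh.2]
      · by_cases hL : 0 < Lf ε n
        · have h7 : ¬ Int.fract (α * n + β) < v := fun h8 => hh ⟨h8, hL⟩
          have h8 : tnt Δ (α * n + β - Δ) = 0 := by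
            by_contra h9
            exact h7 (tnt_supp hv hv1 (α * n + β) h9)
          rw [h8, mul_zero]
        · exact mul_nonpos_of_nonpos_of_nonneg (not_lt.mp hL) ht0
    refine (sum_le_sum h6).trans ?_
    rw [hT, ← sum_filter]
  have hden : 0 < (X : ℝ) * Real.log X := by positivity
  rw [lt_div_iff₀ hden] at hX
  have h6 : κ / 2 * (X * Real.log X) ≤
      C * Real.sqrt (T.card) * Real.sqrt X * lg X ^ (3 / 2 : ℝ) := (hX.le.trans h5).trans h4
  -- square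
  have hlg : lg X ≤ 2 * Real.log X := by unfold lg; linarith
  have hlg0 : 0 < lg X := by unfold lg; linarith
  have h7 : (κ / 2 * (X * Real.log X)) ^ 2 ≤
      (C * Real.sqrt (T.card) * Real.sqrt X * lg X ^ (3 / 2 : ℝ)) ^ 2 :=
    pow_le_pow_left₀ (by positivity) h6 2
  have h8 : (C * Real.sqrt (T.card) * Real.sqrt X * lg X ^ (3 / 2 : ℝ)) ^ 2 =
      C ^ 2 * T.card * X * lg X ^ 3 := by
    rw [mul_pow, mul_pow, mul_pow, Real.sq_sqrt (Nat.cast_nonneg _),
      Real.sq_sqrt (Nat.cast_nonneg _), ← Real.rpow_natCast (lg X ^ (3 / 2 : ℝ)) 2,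
      ← Real.rpow_mul hlg0.le]
    norm_num
  rw [h8] at h7
  have h9 : lg X ^ 3 ≤ 8 * Real.log X ^ 3 := by
    calc lg X ^ 3 ≤ (2 * Real.log X) ^ 3 := pow_le_pow_left₀ hlg0.le hlg 3
      _ = 8 * Real.log X ^ 3 := by ring
  have h10 : (κ / 2 * (X * Real.log X)) ^ 2 ≤ C ^ 2 * T.card * X * (8 * Real.log X ^ 3) :=
    h7.trans (mul_le_mul_of_nonneg_left h9 (by positivity))
  rw [div_le_iff₀ (by linarith)]
  have hX0 : 0 < (X : ℝ) := by linarith
  have hl0 : 0 < Real.log X := by linarith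
  have e5 : (κ / 2 * (X * Real.log X)) ^ 2 =
      ((κ / (2 * C)) ^ 2 / 8 * X) * (8 * C ^ 2 * X * Real.log X ^ 2) := by
    field_simp
  have e6 : C ^ 2 * T.card * X * (8 * Real.log X ^ 3) =
      (T.card * Real.log X) * (8 * C ^ 2 * X * Real.log X ^ 2) := by ring
  rw [e5, e6] at h10
  exact le_of_mul_le_mul_right h10 (by positivity)

end

end Pool.Agent.H75.BR
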