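import Pool.Agent.H28.BR.Stm3

set_option autoImplicit false

/-! Project BR3 (helper28), job OFF -/

namespace Pool.Agent.H75.BR3

open Finset Filter Topology MeasureTheory Pool.Agent.H306R2.RZ Pool.Agent.H306R2.RG
  Pool.Agent.Q122.FM Pool.Agent.H28.BR Pool.Agent.H28.BR3
open Pool.Agent.Helper112 (ee)

noncomputable section

/-! ### elementary facts -/

theorem nd_nn (x : ℝ) : 0 ≤ nd x := abs_nonneg _

theorem nd_pos_of_irr {x : ℝ} (h : Irrational x) : 0 < nd x := by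
  unfold nd
  apply abs_pos.mpr
  intro h0
  exact (h.ne_int (round x)) (by linarith)

theorem gd_nn {L : ℝ} (hL : 0 ≤ L) (x : ℝ) : 0 ≤ gd L x := by
  unfold gd
  have := nd_nn x
  positivity

theorem gd_inv {L x : ℝ} (hL : 0 ≤ L) (hn : 0 < nd x) : gd L x ≤ 1 / nd x := by
  unfold gd
  rw [div_le_div_iff₀ (by positivity) hn]
  nlinarith

theorem Psi_nn (s : ℕ) {L : ℝ} (hL : 0 ≤ L) (β : ℝ) : 0 ≤ Psi s L β :=
  Finset.sum_nonneg fun _ _ => gd_nn hL _

/-- the bound for a fixed denominator -/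
def Bd (s : ℕ) (β : ℝ) : ℝ :=
  ∑ b ∈ (range s).filter (fun b => b.Coprime s), 1 / nd (β - (b : ℝ) / s)

theorem Bd_nn (s : ℕ) (β : ℝ) : 0 ≤ Bd s β :=
  Finset.sum_nonneg fun b _ => div_nonneg zero_le_one (nd_nn (β - (b : ℝ) / s))

theorem Psi_le_Bd (s : ℕ) {L β : ℝ} (hL : 0 ≤ L) (hβ : Irrational β) : Psi s L β ≤ Bd s β := by
  unfold Psi Bd
  apply Finset.sum_le_sum
  intro b _
  apply gd_inv hL
  apply nd_pos_of_irr
  have := hβ.sub_ratCast ((b : ℚ) / s)
  push_cast at this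
  exact this

theorem irr_beta {θ : ℝ} (hθ : Irrational θ) {m : ℕ} (hm : m ≠ 0) : Irrational (8 * (m : ℝ) * θ) := by
  have h := hθ.natCast_mul (m := 8 * m) (by positivity)
  push_cast at h
  exact h

theorem lg_one_le (X : ℕ) : 1 ≤ lg X := by
  unfold lg
  have : 0 ≤ Real.log X := Real.log_natCast_nonneg X
  linarith

theorem tau_nn (n : ℕ) : 0 ≤ tau n := by unfold tau; positivity

/-- `τ(g²)/g` -/
def t1 (g : ℕ) : ℝ := tau (g ^ 2) / g

theorem t1_nn (g : ℕ) : 0 ≤ t1 g := by unfold t1; exact div_nonneg (tau_nn _) (by positivity)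

/-- `τ(g²)/g²` -/
def t2 (g : ℕ) : ℝ := tau (g ^ 2) / g * (1 / g)

theorem t2_nn (g : ℕ) : 0 ≤ t2 g := by
  unfold t2; exact mul_nonneg (t1_nn g) (by positivity)

theorem t2_summable {C : ℝ} (h5 : ∀ g : ℕ, 1 ≤ g → tau (g ^ 2) ≤ C * (g : ℝ) ^ (1 / 4 : ℝ)) :
    Summable t2 := by
  have hs : Summable (fun n : ℕ => C * (n : ℝ) ^ (-(7 / 4) : ℝ)) :=
    (Real.summable_nat_rpow.mpr (by norm_num)).mul_left C
  refine Summable.of_nonneg_of_le t2_nn (fun g => ?_) hs
  rcases Nat.eq_zero_or_pos g with h0 | h0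
  · subst h0
    unfold t2
    simp
  · have hg : (0 : ℝ) < g := by exact_mod_cast h0
    have e : (g : ℝ) ^ (-(7 / 4) : ℝ) = (g : ℝ) ^ (1 / 4 : ℝ) / g * (1 / g) := by
      rw [show (-(7 / 4) : ℝ) = 1 / 4 - 1 - 1 by norm_num, Real.rpow_sub_one hg.ne',
        Real.rpow_sub_one hg.ne']
      field_simp
    rw [e]
    unfold t2
    have := h5 g h0
    have h6 : tau (g ^ 2) / g * (1 / g) ≤ (C * (g : ℝ) ^ (1 / 4 : ℝ)) / g * (1 / g) := by
      gcongr
    calc _ ≤ _ := h6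
      _ = _ := by ring

/-- the exponential factor -/
def Ex (X g v : ℕ) : ℝ := Real.exp (-(((g : ℝ) * v) ^ 2 / (16 * X)))

theorem Ex_nn (X g v : ℕ) : 0 ≤ Ex X g v := (Real.exp_pos _).le

theorem Ex_le1 {X g v : ℕ} (hX : 1 ≤ X) (hg : 1 ≤ g) :
    Ex X g v ≤ Real.exp (-((v : ℝ) ^ 2 / (16 * X))) := by
  unfold Ex
  apply Real.exp_le_exp.mpr
  apply neg_le_neg
  have hX0 : (0 : ℝ) < X := by exact_mod_cast hX
  have hg0 : (1 : ℝ) ≤ g := by exact_mod_cast hg
  apply div_le_div_of_nonneg_right _ (by positivity)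
  have hv : (0 : ℝ) ≤ v := Nat.cast_nonneg v
  nlinarith [mul_nonneg (mul_nonneg hv hv) (show (0 : ℝ) ≤ g ^ 2 - 1 by nlinarith)]

theorem Ex_le2 {X g v : ℕ} (hX : 1 ≤ X) (hg : 1 ≤ g) (hv : 1 ≤ v) :
    Ex X g v ≤ Real.exp (-((g : ℝ) ^ 2 / (16 * (2 * X : ℕ)))) *
      Real.exp (-((v : ℝ) ^ 2 / (16 * (2 * X : ℕ)))) := by
  unfold Ex
  rw [← Real.exp_add]
  apply Real.exp_le_exp.mpr
  have hX0 : (0 : ℝ) < X := by exact_mod_cast hX
  have hg0 : (1 : ℝ) ≤ g := by exact_mod_cast hg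
  have hv0 : (1 : ℝ) ≤ v := by exact_mod_cast hv
  push_cast
  have e : -((g : ℝ) ^ 2 / (16 * (2 * X))) + -((v : ℝ) ^ 2 / (16 * (2 * X))) =
      -((((g : ℝ) ^ 2 + v ^ 2) / 2) / (16 * X)) := by
    field_simp
    ring
  rw [e]
  apply neg_le_neg
  apply div_le_div_of_nonneg_right _ (by positivity)
  have a1 : (g : ℝ) ^ 2 ≤ (g * v) ^ 2 := by
    apply pow_le_pow_left₀ (by positivity)
    nlinarith
  have a2 : (v : ℝ) ^ 2 ≤ (g * v) ^ 2 := by
    apply pow_le_pow_left₀ (by positivity)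
    nlinarith
  linarith

/-- one inner sum by T3 -/
theorem inner {C3 : ℝ} (hC3 : 0 < C3)
    (h3 : ∀ (s0 M : ℕ) (Y L β : ℝ), 1 ≤ s0 → 0 < Y → 0 ≤ L →
      ∑ s ∈ Icc s0 M, tau s / s * Real.exp (-((s : ℝ) / Y)) * Psi s L β ≤
        C3 * Real.exp (-(1 / (2 * Y))) * (lg s0 ^ 2 / Real.sqrt s0 * L +
          (1 + Real.log (1 + Y)) ^ 2 * (Y + Real.sqrt Y * Real.sqrt L)))
    {X g v s0 a : ℕ} (M : ℕ) (θ : ℝ) (hX : 1 ≤ X) (hg : 1 ≤ g) (hv : 1 ≤ v) (hs0 : 1 ≤ s0) (ha : 1 ≤ a) :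
    ∑ s ∈ Icc s0 M, tau s / s * Real.exp (-((s : ℝ) * ((g : ℝ) * v) ^ 2 / (8 * X))) *
        Psi s ((X : ℝ) / (8 * (Nat.lcm (a ^ 2) g : ℕ)) + 1) (8 * (Nat.lcm (a ^ 2) g : ℕ) * θ) ≤
      C3 * (Ex X g v * (lg s0 ^ 2 / Real.sqrt s0) * (X * (1 / g) + 1) +
        192 * lg X ^ 2 * X * (1 / g * (1 / v))) := by
  have hX0 : (1 : ℝ) ≤ X := by exact_mod_cast hX
  have hg0 : (1 : ℝ) ≤ g := by exact_mod_cast hg
  have hv0 : (1 : ℝ) ≤ v := by exact_mod_cast hv
  have hgv : (1 : ℝ) ≤ g * v := by nlinarith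
  have hgv' : (1 : ℝ) ≤ ((g : ℝ) * v) ^ 2 := by nlinarith
  have hlcm : g ≤ Nat.lcm (a ^ 2) g :=
    Nat.le_of_dvd (Nat.lcm_pos (by positivity) (by omega)) (Nat.dvd_lcm_right _ _)
  set m : ℕ := Nat.lcm (a ^ 2) g with hm
  have hm0 : (g : ℝ) ≤ m := by exact_mod_cast hlcm
  set L : ℝ := (X : ℝ) / (8 * m) + 1 with hL
  set Y : ℝ := 8 * X / ((g : ℝ) * v) ^ 2 with hY
  have hY0 : 0 < Y := by rw [hY]; positivity
  have hL0 : 0 ≤ L := by rw [hL]; positivity
  have hLg : L ≤ X * (1 / g) + 1 := by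
    rw [hL]
    have : (X : ℝ) / (8 * m) ≤ X / g := by
      apply div_le_div_of_nonneg_left (by positivity) (by positivity)
      linarith
    have e : (X : ℝ) * (1 / g) = X / g := by ring
    rw [e]
    linarith
  have hL2 : L ≤ 2 * X := by
    have : (X : ℝ) * (1 / g) ≤ X * 1 := by
      apply mul_le_mul_of_nonneg_left _ (by positivity)
      rw [div_le_one (by positivity)]
      exact hg0
    linarith
  have hE : Real.exp (-(1 / (2 * Y))) = Ex X g v := by
    unfold Ex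
    congr 2
    rw [hY]
    field_simp
    ring
  have hEl : Ex X g v ≤ 1 := by
    unfold Ex
    rw [Real.exp_le_one_iff]
    have : 0 ≤ ((g : ℝ) * v) ^ 2 / (16 * X) := by positivity
    linarith
  have hYe : Y ≤ 8 * (X * (1 / g * (1 / v))) := by
    rw [hY, div_le_iff₀ (by positivity)]
    have : 8 * (X * (1 / (g : ℝ) * (1 / v))) * (g * v) ^ 2 = 8 * X * (g * v) := by
      field_simp
    rw [this]
    nlinarith
  have hY8 : Y ≤ 8 * X := by
    rw [hY]
    exact div_le_self (by positivity) hgv'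
  have hsY : Real.sqrt Y * Real.sqrt L ≤ 4 * (X * (1 / g * (1 / v))) := by
    rw [← Real.sqrt_mul hY0.le]
    have h7 : Y * L ≤ (4 * (X * (1 / g * (1 / v)))) ^ 2 := by
      calc Y * L ≤ Y * (2 * X) := by gcongr
        _ = (4 * (X * (1 / (g : ℝ) * (1 / v)))) ^ 2 := by
          rw [hY]
          field_simp
          ring
    calc Real.sqrt (Y * L) ≤ Real.sqrt ((4 * (X * (1 / g * (1 / v)))) ^ 2) := Real.sqrt_le_sqrt h7
      _ = _ := Real.sqrt_sq (by positivity)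
  have hlog : 1 + Real.log (1 + Y) ≤ 4 * lg X := by
    unfold lg
    have a1 : Real.log (1 + Y) ≤ Real.log (9 * X) := by
      apply Real.log_le_log (by positivity)
      linarith
    rw [Real.log_mul (by norm_num) (by positivity)] at a1
    have a2 : Real.log 9 ≤ 3 := by
      rw [show (9 : ℝ) = 3 ^ 2 by norm_num, Real.log_pow]
      have : Real.log 3 ≤ 1.5 := by
        have := Real.log_three_lt_d9
        linarith
      push_cast
      linarith
    have a3 : 0 ≤ Real.log X := Real.log_natCast_nonneg X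
    linarith
  have hlog0 : 0 ≤ 1 + Real.log (1 + Y) := by
    have := Real.log_nonneg (show 1 ≤ 1 + Y by linarith)
    linarith
  have key := h3 s0 M Y L (8 * (m : ℝ) * θ) hs0 hY0 hL0
  have e1 : ∀ s : ℕ, -((s : ℝ) * ((g : ℝ) * v) ^ 2 / (8 * X)) = -((s : ℝ) / Y) := by
    intro s
    rw [hY]
    field_simp
  simp_rw [e1]
  refine key.trans ?_
  rw [hE, mul_assoc]
  apply mul_le_mul_of_nonneg_left _ hC3.le
  have hlam : 0 ≤ lg s0 ^ 2 / Real.sqrt s0 := by positivity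
  have b1 : lg s0 ^ 2 / Real.sqrt s0 * L ≤ lg s0 ^ 2 / Real.sqrt s0 * (X * (1 / g) + 1) := by
    gcongr
  have b2 : (1 + Real.log (1 + Y)) ^ 2 * (Y + Real.sqrt Y * Real.sqrt L) ≤
      (4 * lg X) ^ 2 * (12 * (X * (1 / g * (1 / v)))) := by
    apply mul_le_mul
    · exact pow_le_pow_left₀ hlog0 hlog 2
    · linarith
    · positivity
    · positivity
  calc Ex X g v * (lg s0 ^ 2 / Real.sqrt s0 * L +
        (1 + Real.log (1 + Y)) ^ 2 * (Y + Real.sqrt Y * Real.sqrt L))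
      = Ex X g v * (lg s0 ^ 2 / Real.sqrt s0 * L) +
        Ex X g v * ((1 + Real.log (1 + Y)) ^ 2 * (Y + Real.sqrt Y * Real.sqrt L)) := by ring
    _ ≤ Ex X g v * (lg s0 ^ 2 / Real.sqrt s0 * (X * (1 / g) + 1)) +
        1 * ((4 * lg X) ^ 2 * (12 * (X * (1 / g * (1 / v))))) := by
        apply add_le_add
        · exact mul_le_mul_of_nonneg_left b1 (Ex_nn _ _ _)
        · apply mul_le_mul hEl b2 _ (by norm_num)
          positivity
    _ = _ := by ring

theorem sum_union_le' {f : ℕ → ℝ} (s t : Finset ℕ) (hf : ∀ n, 0 ≤ f n) :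
    ∑ n ∈ s ∪ t, f n ≤ ∑ n ∈ s, f n + ∑ n ∈ t, f n := by
  rw [← Finset.sum_union_inter]
  have : 0 ≤ ∑ n ∈ s ∩ t, f n := Finset.sum_nonneg fun n _ => hf n
  linarith

theorem lgo (k : ℕ) {r : ℝ} (hr : 0 < r) :
    Tendsto (fun n : ℕ => lg n ^ k / (n : ℝ) ^ r) atTop (𝓝 0) := by
  set e : ℝ := r / (2 * (k + 1)) with he
  have he0 : 0 < e := by rw [he]; positivity
  have hlim : Tendsto (fun n : ℕ => (1 + 1 / e) ^ k * (n : ℝ) ^ (-(r / 2))) atTop (𝓝 0) := by
    have h := ((tendsto_rpow_neg_atTop (y := r / 2) (by positivity)).comp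
      (tendsto_natCast_atTop_atTop (R := ℝ))).const_mul ((1 + 1 / e) ^ k)
    rw [mul_zero] at h
    exact h
  refine squeeze_zero' (Eventually.of_forall fun n => ?_) ?_ hlim
  · have := lg_one_le n
    positivity
  · filter_upwards [eventually_ge_atTop 1] with n hn
    have hn0 : (1 : ℝ) ≤ n := by exact_mod_cast hn
    have hn1 : (0 : ℝ) < n := by linarith
    have h1 : lg n ≤ (1 + 1 / e) * (n : ℝ) ^ e := by
      unfold lg
      have a1 := Real.log_le_rpow_div hn1.le he0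
      have a2 : (1 : ℝ) ≤ (n : ℝ) ^ e := Real.one_le_rpow hn0 he0.le
      have a3 : (1 + 1 / e) * (n : ℝ) ^ e = (n : ℝ) ^ e + (n : ℝ) ^ e / e := by ring
      linarith
    have h2 : lg n ^ k ≤ (1 + 1 / e) ^ k * (n : ℝ) ^ (r / 2) := by
      calc lg n ^ k ≤ ((1 + 1 / e) * (n : ℝ) ^ e) ^ k :=
            pow_le_pow_left₀ (by have := lg_one_le n; linarith) h1 k
        _ = (1 + 1 / e) ^ k * (n : ℝ) ^ (e * k) := by
            rw [mul_pow, ← Real.rpow_natCast ((n : ℝ) ^ e) k, ← Real.rpow_mul hn1.le]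
        _ ≤ _ := by
            apply mul_le_mul_of_nonneg_left _ (by positivity)
            apply Real.rpow_le_rpow_of_exponent_le hn0
            rw [he, div_mul_eq_mul_div, div_le_div_iff₀ (by positivity) (by norm_num)]
            have : (0 : ℝ) ≤ k := Nat.cast_nonneg k
            nlinarith
    rw [div_le_iff₀ (by positivity), mul_assoc, ← Real.rpow_add hn1]
    have e1 : -(r / 2) + r = r / 2 := by ring
    rw [e1]
    exact h2

theorem t_OFF (sqk : S_SQK) (t3 : S_T3) (htau : S_TAU) : S_OFF := by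
  obtain ⟨C1, hC1, hsqk⟩ := sqk
  obtain ⟨C3, hC3, h3⟩ := t3
  obtain ⟨-, -, -, ⟨C4, hC4, h4⟩, ⟨C5, hC5, h5⟩⟩ := htau
  intro θ hθ p hp c hc hco a ha δ hδ
  have hsum := t2_summable h5
  set T : ℝ := ∑' g, t2 g with hT
  have hT0 : 0 ≤ T := tsum_nonneg t2_nn
  have hfin : ∀ s : Finset ℕ, ∑ g ∈ s, t2 g ≤ T := fun s => hsum.sum_le_tsum s (fun i _ => t2_nn i)
  set ε : ℝ := δ / (8 * (C1 * C3 * C4)) with hε
  have hε0 : 0 < ε := by rw [hε]; positivity
  obtain ⟨G0, hG0⟩ : ∃ G0 : ℕ, ∀ s : Finset ℕ, (∀ g ∈ s, G0 < g) → ∑ g ∈ s, t2 g ≤ ε := by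
    obtain ⟨s, hs⟩ := (summable_iff_vanishing_norm.mp hsum) ε hε0
    refine ⟨s.sup id, fun t ht => ?_⟩
    have h1 := hs t (Finset.disjoint_left.mpr fun x hx hxs => by
      have h2 := ht x hx
      have h3 := Finset.le_sup (f := id) hxs
      simp only [id] at h3
      omega)
    exact (le_abs_self _).trans h1.le
  set η : ℝ := min 1 (ε / (T + 1)) with hη
  have hη0 : 0 < η := by rw [hη]; positivity
  have hη1 : η ≤ 1 := min_le_left _ _
  have hηT : η * T ≤ ε := by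
    have h1 : η ≤ ε / (T + 1) := min_le_right _ _
    rw [le_div_iff₀ (by positivity)] at h1
    nlinarith
  obtain ⟨S0, hS0⟩ : ∃ S0 : ℕ, lg (S0 + 1) ^ 2 / Real.sqrt ((S0 + 1 : ℕ) : ℝ) ≤ η := by
    have h1 := lgo 2 (show (0 : ℝ) < 1 / 2 by norm_num)
    obtain ⟨n, hn⟩ := eventually_atTop.mp (h1.eventually_le_const hη0)
    refine ⟨n, ?_⟩
    have h2 := hn (n + 1) (by omega)
    rw [Real.sqrt_eq_rpow]
    exact h2
  -- the constant of the finite part
  set W' : ℕ → ℝ := fun g => ∑ s ∈ Icc 1 S0, tau s / s * Bd s (8 * (Nat.lcm (a ^ 2) g : ℕ) * θ) with hW'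
  have hW'0 : ∀ g, 0 ≤ W' g := fun g => Finset.sum_nonneg fun s _ =>
    mul_nonneg (div_nonneg (tau_nn s) (Nat.cast_nonneg s)) (Bd_nn _ _)
  set W : ℝ := ∑ g ∈ Icc 1 G0, t1 g * W' g with hW
  have hW0 : 0 ≤ W := Finset.sum_nonneg fun g _ => mul_nonneg (t1_nn g) (hW'0 g)
  -- the main estimate
  have main : ∀ X M : ℕ, 1 ≤ X →
      ∑ g ∈ Icc 1 M, ∑ v ∈ Icc 1 M, tau (g ^ 2) / g * (tau (v ^ 2) / v) *
        ∑ s ∈ Icc 1 M, tau s / s * Real.exp (-((s : ℝ) * ((g : ℝ) * v) ^ 2 / (8 * X))) *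
          Psi s ((X : ℝ) / (8 * (Nat.lcm (a ^ 2) g : ℕ)) + 1) (8 * (Nat.lcm (a ^ 2) g : ℕ) * θ) ≤
      W * (C4 * lg X ^ 3) + C3 * X * ((2 * ε) * (C4 * lg X ^ 3)) +
        C3 * (C4 * lg (2 * X) ^ 3) ^ 2 + 192 * C3 * lg X ^ 2 * X * (T * T) := by
    intro X M hX
    have hX0 : (1 : ℝ) ≤ X := by exact_mod_cast hX
    set ev : ℕ → ℝ := fun v => Real.exp (-((v : ℝ) ^ 2 / (16 * X))) with hev
    set ev2 : ℕ → ℝ := fun v => Real.exp (-((v : ℝ) ^ 2 / (16 * (2 * X : ℕ)))) with hev2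
    set lam : ℕ → ℝ := fun g => if g ≤ G0 then η else 1 with hlam
    set Wg : ℕ → ℝ := fun g => if g ≤ G0 then W' g else 0 with hWg
    have hlam0 : ∀ g, 0 ≤ lam g := by
      intro g
      simp only [hlam]
      split_ifs
      · exact hη0.le
      · norm_num
    have hlam1 : ∀ g, lam g ≤ 1 := by
      intro g
      simp only [hlam]
      split_ifs
      · exact hη1
      · norm_num
    have hWg0 : ∀ g, 0 ≤ Wg g := by
      intro g
      simp only [hWg]
      split_ifs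
      · exact hW'0 g
      · norm_num
    have hin : ∀ g v : ℕ, 1 ≤ g → 1 ≤ v →
        ∑ s ∈ Icc 1 M, tau s / s * Real.exp (-((s : ℝ) * ((g : ℝ) * v) ^ 2 / (8 * X))) *
          Psi s ((X : ℝ) / (8 * (Nat.lcm (a ^ 2) g : ℕ)) + 1) (8 * (Nat.lcm (a ^ 2) g : ℕ) * θ) ≤
        Wg g * ev v + C3 * (Ex X g v * lam g * (X * (1 / g) + 1) +
          192 * lg X ^ 2 * X * (1 / g * (1 / v))) := by
      intro g v hg hv
      have hL0 : (0 : ℝ) ≤ (X : ℝ) / (8 * (Nat.lcm (a ^ 2) g : ℕ)) + 1 := by positivity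
      by_cases hgG : g ≤ G0
      · have e1 : lam g = η := by simp only [hlam, if_pos hgG]
        have e2 : Wg g = W' g := by simp only [hWg, if_pos hgG]
        rw [e1, e2]
        have hsub : Icc 1 M ⊆ Icc 1 S0 ∪ Icc (S0 + 1) M := by
          intro x hx
          rw [mem_Icc] at hx
          rw [mem_union, mem_Icc, mem_Icc]
          omega
        have hnn : ∀ s : ℕ, 0 ≤ tau s / s * Real.exp (-((s : ℝ) * ((g : ℝ) * v) ^ 2 / (8 * X))) *
          Psi s ((X : ℝ) / (8 * (Nat.lcm (a ^ 2) g : ℕ)) + 1) (8 * (Nat.lcm (a ^ 2) g : ℕ) * θ) :=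
          fun s => mul_nonneg (mul_nonneg (div_nonneg (tau_nn s) (Nat.cast_nonneg s))
            (Real.exp_pos _).le) (Psi_nn s hL0 _)
        refine (Finset.sum_le_sum_of_subset_of_nonneg hsub (fun s _ _ => hnn s)).trans ?_
        refine (sum_union_le' _ _ hnn).trans ?_
        apply add_le_add
        · rw [hW', Finset.sum_mul]
          apply Finset.sum_le_sum
          intro s hs
          rw [mem_Icc] at hs
          have hlcm0 : Nat.lcm (a ^ 2) g ≠ 0 := (Nat.lcm_pos (by positivity) (by omega)).ne'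
          have b1 := Psi_le_Bd s hL0 (irr_beta hθ hlcm0)
          have b2 : Real.exp (-((s : ℝ) * ((g : ℝ) * v) ^ 2 / (8 * X))) ≤ ev v := by
            refine le_trans ?_ (Ex_le1 (v := v) hX hg)
            unfold Ex
            apply Real.exp_le_exp.mpr
            apply neg_le_neg
            have hs1 : (1 : ℝ) ≤ s := by exact_mod_cast hs.1
            rw [div_le_div_iff₀ (by positivity) (by positivity)]
            have : 0 ≤ ((g : ℝ) * v) ^ 2 * X := by positivity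
            nlinarith
          calc tau s / s * Real.exp (-((s : ℝ) * ((g : ℝ) * v) ^ 2 / (8 * X))) *
                Psi s ((X : ℝ) / (8 * (Nat.lcm (a ^ 2) g : ℕ)) + 1) (8 * (Nat.lcm (a ^ 2) g : ℕ) * θ)
              ≤ tau s / s * ev v * Bd s (8 * (Nat.lcm (a ^ 2) g : ℕ) * θ) := by
                apply mul_le_mul _ b1 (Psi_nn s hL0 _) _
                · exact mul_le_mul_of_nonneg_left b2 (div_nonneg (tau_nn s) (Nat.cast_nonneg s))
                · exact mul_nonneg (div_nonneg (tau_nn s) (Nat.cast_nonneg s)) (Real.exp_pos _).le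
            _ = _ := by ring
        · refine (inner hC3 h3 M θ hX hg hv (by omega : 1 ≤ S0 + 1) ha).trans ?_
          apply mul_le_mul_of_nonneg_left _ hC3.le
          apply add_le_add _ le_rfl
          apply mul_le_mul_of_nonneg_right _ (by positivity)
          exact mul_le_mul_of_nonneg_left hS0 (Ex_nn _ _ _)
      · have e1 : lam g = 1 := by simp only [hlam, if_neg hgG]
        have e2 : Wg g = 0 := by simp only [hWg, if_neg hgG]
        rw [e1, e2, zero_mul, zero_add]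
        refine (inner hC3 h3 M θ hX hg hv le_rfl ha).trans (le_of_eq ?_)
        have e3 : lg 1 ^ 2 / Real.sqrt ((1 : ℕ) : ℝ) = 1 := by
          unfold lg
          simp
        rw [e3]
    have hterm : ∀ g ∈ Icc 1 M, ∀ v ∈ Icc 1 M, tau (g ^ 2) / g * (tau (v ^ 2) / v) *
        ∑ s ∈ Icc 1 M, tau s / s * Real.exp (-((s : ℝ) * ((g : ℝ) * v) ^ 2 / (8 * X))) *
          Psi s ((X : ℝ) / (8 * (Nat.lcm (a ^ 2) g : ℕ)) + 1) (8 * (Nat.lcm (a ^ 2) g : ℕ) * θ) ≤
        (t1 g * Wg g) * (t1 v * ev v) + C3 * X * ((t2 g * lam g) * (t1 v * ev v)) +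
          C3 * ((t1 g * ev2 g) * (t1 v * ev2 v)) + 192 * C3 * lg X ^ 2 * X * (t2 g * t2 v) := by
      intro g hg v hv
      rw [mem_Icc] at hg hv
      have h1 := hin g v hg.1 hv.1
      have ht : 0 ≤ t1 g * t1 v := mul_nonneg (t1_nn g) (t1_nn v)
      have h2 := mul_le_mul_of_nonneg_left h1 ht
      refine h2.trans ?_
      have a1 : Ex X g v ≤ ev v := Ex_le1 hX hg.1
      have a2 : Ex X g v ≤ ev2 g * ev2 v := Ex_le2 hX hg.1 hv.1
      have a3 : Ex X g v * lam g ≤ ev2 g * ev2 v := by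
        calc Ex X g v * lam g ≤ Ex X g v * 1 := mul_le_mul_of_nonneg_left (hlam1 g) (Ex_nn _ _ _)
          _ ≤ _ := by rw [mul_one]; exact a2
      have a4 : Ex X g v * lam g * (X * (1 / g) + 1) ≤ X * (ev v * lam g * (1 / g)) + ev2 g * ev2 v := by
        have b1 : Ex X g v * lam g * (X * (1 / g)) ≤ ev v * lam g * (X * (1 / g)) := by
          apply mul_le_mul_of_nonneg_right _ (by positivity)
          exact mul_le_mul_of_nonneg_right a1 (hlam0 g)
        calc Ex X g v * lam g * (X * (1 / g) + 1)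
            = Ex X g v * lam g * (X * (1 / g)) + Ex X g v * lam g := by ring
          _ ≤ ev v * lam g * (X * (1 / g)) + ev2 g * ev2 v := add_le_add b1 a3
          _ = _ := by ring
      have a5 : t1 g * t1 v * (Wg g * ev v + C3 * (Ex X g v * lam g * (X * (1 / g) + 1) +
          192 * lg X ^ 2 * X * (1 / g * (1 / v)))) ≤ t1 g * t1 v * (Wg g * ev v +
          C3 * ((X * (ev v * lam g * (1 / g)) + ev2 g * ev2 v) +
          192 * lg X ^ 2 * X * (1 / g * (1 / v)))) := by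
        apply mul_le_mul_of_nonneg_left _ ht
        apply add_le_add le_rfl
        apply mul_le_mul_of_nonneg_left _ hC3.le
        exact add_le_add a4 le_rfl
      refine a5.trans (le_of_eq ?_)
      have e1 : ∀ g : ℕ, t2 g = t1 g * (1 / g) := fun g => rfl
      rw [e1 g, e1 v]
      ring
    refine (Finset.sum_le_sum fun g hg => Finset.sum_le_sum fun v hv => hterm g hg v hv).trans ?_
    simp_rw [Finset.sum_add_distrib]
    simp_rw [← Finset.mul_sum]
    simp_rw [← Finset.sum_mul]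
    have hev4 : ∑ v ∈ Icc 1 M, t1 v * ev v ≤ C4 * lg X ^ 3 := h4 M X hX
    have hev5 : ∑ v ∈ Icc 1 M, t1 v * ev2 v ≤ C4 * lg (2 * X) ^ 3 := h4 M (2 * X) (by omega)
    have hev40 : 0 ≤ ∑ v ∈ Icc 1 M, t1 v * ev v := Finset.sum_nonneg fun v _ =>
      mul_nonneg (t1_nn v) (Real.exp_pos _).le
    have hev50 : 0 ≤ ∑ v ∈ Icc 1 M, t1 v * ev2 v := Finset.sum_nonneg fun v _ =>
      mul_nonneg (t1_nn v) (Real.exp_pos _).le
    have hWs : ∑ g ∈ Icc 1 M, t1 g * Wg g ≤ W := by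
      have e1 : ∀ g, t1 g * Wg g = if g ≤ G0 then t1 g * W' g else 0 := by
        intro g
        simp only [hWg]
        split_ifs <;> simp
      simp_rw [e1]
      rw [← Finset.sum_filter, hW]
      apply Finset.sum_le_sum_of_subset_of_nonneg
      · intro x hx
        rw [mem_filter, mem_Icc] at hx
        rw [mem_Icc]
        omega
      · intro g _ _
        exact mul_nonneg (t1_nn g) (hW'0 g)
    have hlams : ∑ g ∈ Icc 1 M, t2 g * lam g ≤ 2 * ε := by
      have e1 : ∀ g, t2 g * lam g ≤ η * t2 g + if G0 < g then t2 g else 0 := by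
        intro g
        simp only [hlam]
        by_cases h : g ≤ G0
        · rw [if_pos h, if_neg (by omega)]
          linarith [mul_comm (t2 g) η]
        · rw [if_neg h, if_pos (by omega)]
          have := mul_nonneg hη0.le (t2_nn g)
          linarith
      calc ∑ g ∈ Icc 1 M, t2 g * lam g ≤ ∑ g ∈ Icc 1 M, (η * t2 g + if G0 < g then t2 g else 0) :=
            Finset.sum_le_sum fun g _ => e1 g
        _ = η * ∑ g ∈ Icc 1 M, t2 g + ∑ g ∈ (Icc 1 M).filter (fun g => G0 < g), t2 g := by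
            rw [Finset.sum_add_distrib, ← Finset.mul_sum, ← Finset.sum_filter]
        _ ≤ η * T + ε := by
            apply add_le_add
            · exact mul_le_mul_of_nonneg_left (hfin _) hη0.le
            · apply hG0
              intro g hg
              exact (mem_filter.mp hg).2
        _ ≤ _ := by linarith
    have hlams0 : 0 ≤ ∑ g ∈ Icc 1 M, t2 g * lam g := Finset.sum_nonneg fun g _ =>
      mul_nonneg (t2_nn g) (hlam0 g)
    have ht20 : 0 ≤ ∑ g ∈ Icc 1 M, t2 g := Finset.sum_nonneg fun g _ => t2_nn g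
    have hlgX := lg_one_le X
    apply add_le_add
    · apply add_le_add
      · apply add_le_add
        · exact mul_le_mul hWs hev4 hev40 hW0
        · apply mul_le_mul_of_nonneg_left _ (by positivity)
          exact mul_le_mul hlams hev4 hev40 (by positivity)
      · apply mul_le_mul_of_nonneg_left _ hC3.le
        rw [sq]
        exact mul_le_mul hev5 hev5 hev50 (by have := lg_one_le (2 * X); positivity)
    · apply mul_le_mul_of_nonneg_left _ (by positivity)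
      exact mul_le_mul (hfin _) (hfin _) ht20 hT0
  -- large X
  have E1 : ∀ᶠ X : ℕ in atTop, C1 * (W * C4) ≤ δ / 4 * X := by
    have h := (tendsto_natCast_atTop_atTop (R := ℝ)).const_mul_atTop (show 0 < δ / 4 by positivity)
    exact h.eventually_ge_atTop _
  have E2 : ∀ᶠ X : ℕ in atTop, C1 * C3 * C4 ^ 2 * 64 * (lg X ^ 3 / (X : ℝ) ^ (1 : ℝ)) ≤ δ / 4 := by
    have h := (lgo 3 (show (0 : ℝ) < 1 by norm_num)).const_mul (C1 * C3 * C4 ^ 2 * 64)
    rw [mul_zero] at h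
    exact h.eventually_le_const (by positivity)
  have E3 : ∀ᶠ X : ℕ in atTop, C1 * (192 * C3 * (T * T)) ≤ δ / 4 * lg X := by
    have h : Tendsto (fun X : ℕ => lg X) atTop atTop :=
      tendsto_atTop_add_const_left _ _ (Real.tendsto_log_atTop.comp tendsto_natCast_atTop_atTop)
    exact (h.const_mul_atTop (show 0 < δ / 4 by positivity)).eventually_ge_atTop _
  obtain ⟨X0, hX0⟩ := eventually_atTop.mp ((E1.and E2).and (E3.and (eventually_ge_atTop 1)))
  refine ⟨X0, fun X N hXN => ?_⟩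
  obtain ⟨⟨e1, e2⟩, ⟨e3, hX⟩⟩ := hX0 X hXN
  have hX' : (1 : ℝ) ≤ X := by exact_mod_cast hX
  refine (hsqk p hp c hc hco a ha X N θ hX).trans ?_
  refine (mul_le_mul_of_nonneg_left (main X (N ^ 2) hX) hC1.le).trans ?_
  have hlg := lg_one_le X
  have hlg2 : lg (2 * X) ≤ 2 * lg X := by
    unfold lg
    push_cast
    rw [Real.log_mul (by norm_num) (by positivity)]
    have := Real.log_two_lt_d9
    have := Real.log_natCast_nonneg X
    linarith
  have hlg20 := lg_one_le (2 * X)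
  have f1 : C1 * (W * (C4 * lg X ^ 3)) ≤ δ / 4 * (X * lg X ^ 3) := by
    have := mul_le_mul_of_nonneg_right e1 (show (0 : ℝ) ≤ lg X ^ 3 by positivity)
    linarith
  have f2 : C1 * (C3 * X * ((2 * ε) * (C4 * lg X ^ 3))) = δ / 4 * (X * lg X ^ 3) := by
    rw [hε]
    field_simp
    ring
  have f3 : C1 * (C3 * (C4 * lg (2 * X) ^ 3) ^ 2) ≤ δ / 4 * (X * lg X ^ 3) := by
    rw [Real.rpow_one] at e2
    have g1 : lg (2 * X) ^ 3 ≤ (2 * lg X) ^ 3 := pow_le_pow_left₀ (by linarith) hlg2 3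
    have g2 : (C4 * lg (2 * X) ^ 3) ^ 2 ≤ (C4 * (2 * lg X) ^ 3) ^ 2 := by gcongr
    have g3 := mul_le_mul_of_nonneg_right e2 (show (0 : ℝ) ≤ X * lg X ^ 3 by positivity)
    calc C1 * (C3 * (C4 * lg (2 * X) ^ 3) ^ 2) ≤ C1 * (C3 * (C4 * (2 * lg X) ^ 3) ^ 2) := by gcongr
      _ = C1 * C3 * C4 ^ 2 * 64 * (lg X ^ 3 / X) * (X * lg X ^ 3) := by
        field_simp
        ring
      _ ≤ _ := g3
  have f4 : C1 * (192 * C3 * lg X ^ 2 * X * (T * T)) ≤ δ / 4 * (X * lg X ^ 3) := by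
    have := mul_le_mul_of_nonneg_right e3 (show (0 : ℝ) ≤ X * lg X ^ 2 by positivity)
    calc C1 * (192 * C3 * lg X ^ 2 * X * (T * T)) = C1 * (192 * C3 * (T * T)) * (X * lg X ^ 2) := by ring
      _ ≤ δ / 4 * lg X * (X * lg X ^ 2) := this
      _ = _ := by ring
  calc C1 * (W * (C4 * lg X ^ 3) + C3 * X * ((2 * ε) * (C4 * lg X ^ 3)) +
        C3 * (C4 * lg (2 * X) ^ 3) ^ 2 + 192 * C3 * lg X ^ 2 * X * (T * T))
      = C1 * (W * (C4 * lg X ^ 3)) + C1 * (C3 * X * ((2 * ε) * (C4 * lg X ^ 3))) +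
        C1 * (C3 * (C4 * lg (2 * X) ^ 3) ^ 2) + C1 * (192 * C3 * lg X ^ 2 * X * (T * T)) := by ring
    _ ≤ δ / 4 * (X * lg X ^ 3) + δ / 4 * (X * lg X ^ 3) + δ / 4 * (X * lg X ^ 3) +
        δ / 4 * (X * lg X ^ 3) := by
        apply add_le_add (add_le_add (add_le_add f1 f2.le) f3) f4
    _ = _ := by ring

end

end Pool.Agent.H75.BR3
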