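import Pool.Agent.H28.BR.Stm3

set_option autoImplicit false

/-! Project BR3 (helper28), job TAIL -/

namespace Pool.Agent.H75.BR3T

open Finset Filter Topology MeasureTheory Pool.Agent.H306R2.RZ Pool.Agent.H306R2.RG
  Pool.Agent.Q122.FM Pool.Agent.H28.BR Pool.Agent.H28.BR3
open Pool.Agent.Helper112 (ee)

noncomputable section

/-! ### elementary facts -/

theorem par_ok {φ : FD} (hφ : Fam φ) : (par φ).ok := by
  obtain ⟨ε, hε, h⟩ := hφ
  rcases hε with rfl | rfl <;> rcases h with rfl | rfl | rfl | rfl <;>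
    simp [Par.ok, par, F8, F4, F1]

theorem js_abs (k : ℤ) (n : ℕ) : |js k n| ≤ 1 := by
  unfold js
  rcases jacobiSym.trichotomy k n with h | h | h <;> rw [h] <;> simp

theorem lg_one_le (X : ℕ) : 1 ≤ lg X := by
  unfold lg
  have : 0 ≤ Real.log X := Real.log_natCast_nonneg X
  linarith

theorem lg_mono {X Y : ℕ} (h : X ≤ Y) : lg X ≤ lg Y := by
  rcases Nat.eq_zero_or_pos X with h0 | h0
  · subst h0
    have : lg 0 = 1 := by unfold lg; simp
    rw [this]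
    exact lg_one_le Y
  · unfold lg
    have : Real.log X ≤ Real.log Y := Real.log_le_log (by exact_mod_cast h0) (by exact_mod_cast h)
    linarith

theorem tau_nn (n : ℕ) : 0 ≤ tau n := by unfold tau; positivity

theorem sq_dvd_iff {a b e : ℕ} (hb : 1 ≤ b) (he : Squarefree e) : a ^ 2 ∣ b ^ 2 * e ↔ a ∣ b := by
  constructor
  · intro h
    rcases Nat.eq_zero_or_pos a with h0 | h0
    · subst h0
      exfalso
      have h1 : b ^ 2 * e = 0 := by simpa using h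
      have h2 : e ≠ 0 := he.ne_zero
      have h3 : b ^ 2 ≠ 0 := by positivity
      exact (mul_ne_zero h3 h2) h1
    · obtain ⟨g, a', b', hg, hco, ha', hb'⟩ := Nat.exists_coprime' (m := a) (n := b)
        (Nat.gcd_pos_of_pos_left b h0)
      have h1 : a' ^ 2 ∣ b' ^ 2 * e := by
        rw [ha', hb'] at h
        have h2 : g ^ 2 * a' ^ 2 ∣ g ^ 2 * (b' ^ 2 * e) := by
          convert h using 1 <;> ring
        exact Nat.dvd_of_mul_dvd_mul_left (by positivity) h2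
      have h2 : a' ^ 2 ∣ e := (Nat.Coprime.pow 2 2 hco).dvd_of_dvd_mul_left h1
      have h3 : IsUnit a' := he a' (by rw [← sq]; exact h2)
      rw [Nat.isUnit_iff] at h3
      rw [ha', hb', h3, one_mul]
      exact Dvd.intro_left b' rfl
  · intro h
    exact (pow_dvd_pow_of_dvd h 2).mul_right e

theorem sqf_iff {b e : ℕ} (he : Squarefree e) : Squarefree (b ^ 2 * e) ↔ b = 1 := by
  constructor
  · intro h
    have := h b ⟨e, by ring⟩
    rwa [Nat.isUnit_iff] at this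
  · rintro rfl
    simpa using he

theorem RA_eq {A b e : ℕ} (hb : 1 ≤ b) (he : Squarefree e) :
    RA A (b ^ 2 * e) = ∑ a ∈ b.divisors.filter (fun a => A < a),
      ((ArithmeticFunction.moebius a : ℤ) : ℝ) := by
  unfold RA
  have h1 : (if Squarefree (b ^ 2 * e) then (1 : ℝ) else 0) = ∑ a ∈ b.divisors,
      ((ArithmeticFunction.moebius a : ℤ) : ℝ) := by
    have h2 := congrArg (fun f => f b) (ArithmeticFunction.coe_zeta_mul_moebius)
    simp only [ArithmeticFunction.coe_zeta_mul_apply, ArithmeticFunction.one_apply] at h2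
    have h3 : ((∑ a ∈ b.divisors, ArithmeticFunction.moebius a : ℤ) : ℝ) =
        ((if b = 1 then 1 else 0 : ℤ) : ℝ) := by rw [h2]
    push_cast at h3
    rw [h3]
    by_cases hb1 : b = 1
    · rw [if_pos ((sqf_iff he).mpr hb1), if_pos hb1]
    · rw [if_neg (fun h => hb1 ((sqf_iff he).mp h)), if_neg hb1]
  have h2 : (Icc 1 A).filter (fun a => a ^ 2 ∣ b ^ 2 * e) = b.divisors.filter (fun a => ¬ A < a) := by
    ext a
    rw [mem_filter, mem_filter, mem_Icc, Nat.mem_divisors, sq_dvd_iff hb he]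
    constructor
    · rintro ⟨⟨h1, h2⟩, h3⟩
      exact ⟨⟨h3, by omega⟩, by omega⟩
    · rintro ⟨⟨h3, h4⟩, h5⟩
      exact ⟨⟨Nat.pos_of_dvd_of_pos h3 hb, by omega⟩, h3⟩
  rw [h1, h2, ← Finset.sum_filter_add_sum_filter_not b.divisors (fun a => A < a)]
  ring

theorem RA_le {A b e : ℕ} (hb : 1 ≤ b) (he : Squarefree e) :
    |RA A (b ^ 2 * e)| ≤ if A < b then tau b else 0 := by
  rw [RA_eq hb he]
  by_cases h : A < b
  · rw [if_pos h]
    refine (Finset.abs_sum_le_sum_abs _ _).trans ?_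
    have h1 : ∀ a ∈ b.divisors.filter (fun a => A < a),
        |((ArithmeticFunction.moebius a : ℤ) : ℝ)| ≤ 1 := by
      intro a _
      exact_mod_cast ArithmeticFunction.abs_moebius_le_one (n := a)
    refine (Finset.sum_le_sum h1).trans ?_
    rw [Finset.sum_const, nsmul_eq_mul, mul_one]
    unfold tau
    exact_mod_cast Finset.card_filter_le _ _
  · rw [if_neg h]
    have : b.divisors.filter (fun a => A < a) = ∅ := by
      apply Finset.filter_false_of_mem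
      intro a ha
      have := Nat.divisor_le ha
      omega
    rw [this]
    simp

/-- the numbers `d ≤ X` as `b² e` -/
theorem split_sum (X c : ℕ) (F : ℕ → ℝ) (hF : ∀ d, 0 ≤ F d) (hc : Odd c) :
    ∑ d ∈ (Icc 1 X).filter (fun d => d % 8 = c), F d ≤
      ∑ b ∈ (Icc 1 (Nat.sqrt X)).filter (fun b => Odd b),
        ∑ e ∈ (Icc 1 (X / b ^ 2)).filter (fun e => e % 8 = c ∧ Squarefree e), F (b ^ 2 * e) := by
  have hex : ∀ d : ℕ, ∃ t : Σ _ : ℕ, ℕ, t.1 ^ 2 * t.2 = d ∧ Squarefree t.2 := by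
    intro d
    obtain ⟨a, b, h1, h2⟩ := Nat.sq_mul_squarefree d
    exact ⟨⟨b, a⟩, h1, h2⟩
  choose i hi1 hi2 using hex
  set T : Finset (Σ _ : ℕ, ℕ) := ((Icc 1 (Nat.sqrt X)).filter (fun b => Odd b)).sigma
    (fun b => (Icc 1 (X / b ^ 2)).filter (fun e => e % 8 = c ∧ Squarefree e)) with hT
  have h1 : ∑ d ∈ (Icc 1 X).filter (fun d => d % 8 = c), F d =
      ∑ t ∈ ((Icc 1 X).filter (fun d => d % 8 = c)).image i, F (t.1 ^ 2 * t.2) := by
    rw [Finset.sum_image]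
    · apply Finset.sum_congr rfl
      intro d _
      rw [hi1]
    · intro x _ y _ hxy
      rw [← hi1 x, ← hi1 y, hxy]
  rw [h1, Finset.sum_sigma']
  apply Finset.sum_le_sum_of_subset_of_nonneg
  · intro t ht
    rw [mem_image] at ht
    obtain ⟨d, hd, rfl⟩ := ht
    rw [mem_filter, mem_Icc] at hd
    obtain ⟨⟨hd1, hd2⟩, hd3⟩ := hd
    have e1 := hi1 d
    have e2 := hi2 d
    set b := (i d).1
    set e := (i d).2
    have hb0 : b ≠ 0 := by
      rintro h0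
      rw [h0] at e1
      simp at e1
      omega
    have he0 : e ≠ 0 := e2.ne_zero
    have hodd : Odd d := by
      rw [Nat.odd_iff] at hc ⊢
      omega
    have hbo : Odd b := by
      rw [← e1, sq, mul_assoc] at hodd
      exact (Nat.odd_mul.mp hodd).1
    rw [mem_sigma, mem_filter, mem_Icc, mem_filter, mem_Icc]
    refine ⟨⟨⟨Nat.one_le_iff_ne_zero.mpr hb0, ?_⟩, hbo⟩, ⟨Nat.one_le_iff_ne_zero.mpr he0, ?_⟩, ?_, e2⟩
    · rw [Nat.le_sqrt]
      calc b * b = b ^ 2 * 1 := by ring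
        _ ≤ b ^ 2 * e := Nat.mul_le_mul_left _ (Nat.one_le_iff_ne_zero.mpr he0)
        _ = d := e1
        _ ≤ X := hd2
    · rw [Nat.le_div_iff_mul_le (by positivity), mul_comm, e1]
      exact hd2
    · have hb8 : b ^ 2 % 8 = 1 := by
        rw [Nat.odd_iff] at hbo
        have h8 : b % 8 = 1 ∨ b % 8 = 3 ∨ b % 8 = 5 ∨ b % 8 = 7 := by omega
        rw [Nat.pow_mod]
        rcases h8 with h | h | h | h <;> rw [h]
      have h9 : (b ^ 2 * e) % 8 = e % 8 := by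
        rw [Nat.mul_mod, hb8, one_mul, Nat.mod_mod]
      rw [← h9, e1, hd3]
  · intro t _ _
    exact hF _

/-! ### the mean square of the limits -/

theorem msq_lim (lima : S_LIMA) {C : ℝ}
    (hm : ∀ p : Par, p.ok → ∀ c : ℕ, c < 8 → Odd c → ∀ (X N : ℕ) (z : ℕ → ℝ),
      1 ≤ X → (∀ d ∈ Icc 1 X, 1 / (8 * (X : ℝ)) ≤ z d) →
      ∑ d ∈ (Icc 1 X).filter (fun d => d % 8 = c), EA p N d (z d) ^ 2 ≤ C * (X * lg X ^ 3))
    {p : Par} (hp : p.ok) {c : ℕ} (hc : c < 8) (hco : Odd c) {X : ℕ} (hX : 1 ≤ X) (z : ℕ → ℝ)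
    (hz : ∀ d ∈ Icc 1 X, 1 / (8 * (X : ℝ)) ≤ z d) :
    ∑ d ∈ (Icc 1 X).filter (fun d => d % 8 = c), Einf p d (z d) ^ 2 ≤ C * (X * lg X ^ 3) := by
  have hX0 : (0 : ℝ) < X := by exact_mod_cast hX
  have h1 : Tendsto (fun N : ℕ => ∑ d ∈ (Icc 1 X).filter (fun d => d % 8 = c), EA p N d (z d) ^ 2) atTop
      (𝓝 (∑ d ∈ (Icc 1 X).filter (fun d => d % 8 = c), Einf p d (z d) ^ 2)) := by
    apply tendsto_finsetSum
    intro d hd
    apply (lima p hp d (z d) ?_).pow 2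
    have := hz d (mem_filter.mp hd).1
    exact lt_of_lt_of_le (by positivity) this
  exact le_of_tendsto h1 (Eventually.of_forall fun N => hm p hp c hc hco X N z hX hz)

/-- the formula for `b² e` -/
theorem pt (div : S_DIVB) (feq : S_FEQ) {φ : FD} (hφ : Fam φ) {b e : ℕ} (hb : Odd b) (he : Squarefree e)
    (hA : φ.A e) :
    Einf (par φ) (b ^ 2 * e) (1 / (φ.r * ((b ^ 2 * e : ℕ) : ℝ))) ^ 2 ≤
      tau b * ∑ g ∈ b.divisors, (8 * Einf (par φ) e (1 / (φ.r * (e : ℝ))) ^ 2 +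
        2 * Einf (par φ) e (((b : ℝ) / g) ^ 2 / (φ.r * (e : ℝ))) ^ 2) := by
  have hr := (par_ok hφ).2.1
  have hr0 : (0 : ℝ) < φ.r := by exact_mod_cast hr.1
  have he1 : 1 ≤ e := Nat.one_le_iff_ne_zero.mpr he.ne_zero
  have he0 : (0 : ℝ) < e := by exact_mod_cast he1
  have hb1 : 1 ≤ b := hb.pos
  have hb0 : (0 : ℝ) < b := by exact_mod_cast hb1
  have hz : 0 < 1 / (φ.r * ((b ^ 2 * e : ℕ) : ℝ)) := by push_cast; positivity
  rw [div (par φ) (par_ok hφ) b e _ hb he1 hz]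
  refine (sq_sum_le_card_mul_sum_sq).trans ?_
  unfold tau
  apply mul_le_mul_of_nonneg_left _ (by positivity)
  apply Finset.sum_le_sum
  intro g hg
  have hgd := Nat.dvd_of_mem_divisors hg
  have hg1 : 1 ≤ g := Nat.pos_of_dvd_of_pos hgd hb1
  have hg0 : (0 : ℝ) < g := by exact_mod_cast hg1
  have e1 : (g : ℝ) ^ 2 * (1 / (φ.r * ((b ^ 2 * e : ℕ) : ℝ))) =
      ((g : ℝ) / b) ^ 2 / (φ.r * (e : ℝ)) := by
    push_cast
    field_simp
  have e2 := (feq φ hφ e hA he).2 (((g : ℝ) / b) ^ 2) (by positivity)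
  have e3 : 1 / (((g : ℝ) / b) ^ 2 * (φ.r * (e : ℝ))) = ((b : ℝ) / g) ^ 2 / (φ.r * (e : ℝ)) := by
    field_simp
  rw [e3] at e2
  rw [e1]
  set E1 := Einf (par φ) e (1 / (φ.r * (e : ℝ)))
  set E2 := Einf (par φ) e (((b : ℝ) / g) ^ 2 / (φ.r * (e : ℝ)))
  set E3 := Einf (par φ) e (((g : ℝ) / b) ^ 2 / (φ.r * (e : ℝ)))
  have hc : |((ArithmeticFunction.moebius g : ℤ) : ℝ) * (js ((par φ).e * (e : ℤ)) g / Real.sqrt g)| ≤ 1 := by
    rw [abs_mul, abs_div]
    have a1 : |((ArithmeticFunction.moebius g : ℤ) : ℝ)| ≤ 1 := by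
      exact_mod_cast ArithmeticFunction.abs_moebius_le_one (n := g)
    have a2 := js_abs ((par φ).e * (e : ℤ)) g
    have a3 : (1 : ℝ) ≤ |Real.sqrt g| := by
      rw [abs_of_nonneg (Real.sqrt_nonneg _), Real.one_le_sqrt]
      exact_mod_cast hg1
    have a4 : |js ((par φ).e * (e : ℤ)) g| / |Real.sqrt g| ≤ 1 := by
      rw [div_le_one (by linarith)]
      linarith
    calc |((ArithmeticFunction.moebius g : ℤ) : ℝ)| * (|js ((par φ).e * (e : ℤ)) g| / |Real.sqrt g|)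
        ≤ 1 * 1 := mul_le_mul a1 a4 (by positivity) (by norm_num)
      _ = 1 := by norm_num
  rw [mul_pow]
  have hc2 : (((ArithmeticFunction.moebius g : ℤ) : ℝ) *
      (js ((par φ).e * (e : ℤ)) g / Real.sqrt g)) ^ 2 ≤ 1 := by
    rw [← sq_abs]
    exact pow_le_one₀ (abs_nonneg _) hc
  have h3 : E3 = 2 * E1 - E2 := by linarith
  calc _ ≤ 1 * E3 ^ 2 := mul_le_mul_of_nonneg_right hc2 (sq_nonneg _)
    _ ≤ _ := by
      rw [h3]
      nlinarith [sq_nonneg (2 * E1 + E2)]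

/-- `d = b²` -/
theorem one_bd (lima : S_LIMA) {C : ℝ} (hC : 0 < C)
    (hf : ∀ p : Par, p.ok → ∀ (N d : ℕ) (z z' : ℝ), 0 < z' → z' ≤ z → z ≤ 1 →
      |(EN p N d z + ES p N d z) - (EN p N d z' + ES p N d z')| ≤
        C * (z' ^ (-(1 / 4) : ℝ) - z ^ (-(1 / 4) : ℝ)) ∧
      |EN p N d z + ES p N d z| ≤ C * z ^ (-(1 / 4) : ℝ))
    {p : Par} (hp : p.ok) {b : ℕ} (hb : 1 ≤ b) (d : ℕ) :
    Einf p d (1 / (p.r * ((b ^ 2 : ℕ) : ℝ))) ^ 2 ≤ 3 * C ^ 2 * b := by
  have hr1 : (1 : ℝ) ≤ p.r := by exact_mod_cast hp.2.1.1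
  have hr8 : (p.r : ℝ) ≤ 8 := by exact_mod_cast hp.2.1.2
  have hb1 : (1 : ℝ) ≤ b := by exact_mod_cast hb
  have hb2 : (1 : ℝ) ≤ (b : ℝ) ^ 2 := by nlinarith
  set z : ℝ := 1 / (p.r * ((b ^ 2 : ℕ) : ℝ)) with hz
  have hz0 : 0 < z := by rw [hz]; push_cast; positivity
  have hz1 : z ≤ 1 := by
    rw [hz, div_le_one (by push_cast; positivity)]
    push_cast
    nlinarith
  have h1 : |Einf p d z| ≤ C * z ^ (-(1 / 4) : ℝ) :=
    le_of_tendsto (lima p hp d z hz0).abs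
      (Eventually.of_forall fun N => (hf p hp N d z z hz0 le_rfl hz1).2)
  have h2 : (z ^ (-(1 / 4) : ℝ)) ^ 2 ≤ 3 * b := by
    rw [← Real.rpow_natCast, ← Real.rpow_mul hz0.le]
    have e1 : (-(1 / 4) : ℝ) * ((2 : ℕ) : ℝ) = -(1 / 2) := by push_cast; norm_num
    rw [e1, Real.rpow_neg hz0.le, ← Real.sqrt_eq_rpow, ← Real.sqrt_inv]
    have e2 : z⁻¹ = p.r * (b : ℝ) ^ 2 := by
      rw [hz]
      push_cast
      field_simp
    rw [e2]
    calc Real.sqrt (p.r * (b : ℝ) ^ 2) ≤ Real.sqrt ((3 * b) ^ 2) := by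
          apply Real.sqrt_le_sqrt
          nlinarith
      _ = 3 * b := Real.sqrt_sq (by positivity)
  calc Einf p d z ^ 2 = |Einf p d z| ^ 2 := (sq_abs _).symm
    _ ≤ (C * z ^ (-(1 / 4) : ℝ)) ^ 2 := pow_le_pow_left₀ (abs_nonneg _) h1 2
    _ = C ^ 2 * (z ^ (-(1 / 4) : ℝ)) ^ 2 := by ring
    _ ≤ C ^ 2 * (3 * b) := mul_le_mul_of_nonneg_left h2 (by positivity)
    _ = _ := by ring

/-- `∑_{A < b ≤ S} b^{-5/4} ≤ 4 A^{-1/4}` -/
theorem tail_sum (A S : ℕ) (hA : 1 ≤ A) :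
    ∑ b ∈ Ioc A S, (b : ℝ) ^ (-(5 / 4) : ℝ) ≤ 4 * (A : ℝ) ^ (-(1 / 4) : ℝ) := by
  have key : ∀ n : ℕ, A ≤ n → ∑ b ∈ Ioc A n, (b : ℝ) ^ (-(5 / 4) : ℝ) ≤
      4 * ((A : ℝ) ^ (-(1 / 4) : ℝ) - (n : ℝ) ^ (-(1 / 4) : ℝ)) := by
    intro n hn
    induction n, hn using Nat.le_induction with
    | base => simp
    | succ n hn ih =>
      rw [← Finset.insert_Ioc_right_eq_Ioc_add_one hn, Finset.sum_insert (by simp)]
      have hn0 : (0 : ℝ) < n := by exact_mod_cast (by omega : 0 < n)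
      set x : ℝ := ((n + 1 : ℕ) : ℝ) with hx
      have hxe : x = n + 1 := by rw [hx]; push_cast; ring
      have hx1 : 1 < x := by rw [hxe]; linarith
      have hx0 : 0 < x := by linarith
      have b1 : (1 + -(1 / x)) ^ (1 / 4 : ℝ) ≤ 1 + 1 / 4 * -(1 / x) := by
        apply rpow_one_add_le_one_add_mul_self _ (by norm_num) (by norm_num)
        have : 1 / x ≤ 1 := by rw [div_le_one hx0]; linarith
        linarith
      have e1 : (n : ℝ) = x * (1 + -(1 / x)) := by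
        rw [hxe]
        field_simp
        ring
      have hpos : 0 < 1 + -(1 / x) := by
        have : 1 / x < 1 := by rw [div_lt_one hx0]; linarith
        linarith
      have b2 : (n : ℝ) ^ (-(1 / 4) : ℝ) = x ^ (-(1 / 4) : ℝ) * ((1 + -(1 / x)) ^ (1 / 4 : ℝ))⁻¹ := by
        rw [e1, Real.mul_rpow hx0.le hpos.le, Real.rpow_neg hpos.le]
      have b3 : 1 + 1 / (4 * x) ≤ ((1 + -(1 / x)) ^ (1 / 4 : ℝ))⁻¹ := by
        have p1 : 0 < (1 + -(1 / x)) ^ (1 / 4 : ℝ) := Real.rpow_pos_of_pos hpos _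
        rw [le_inv_comm₀ (by positivity) p1]
        refine b1.trans ?_
        rw [le_inv_comm₀ _ (by positivity)]
        · rw [inv_eq_one_div, le_div_iff₀]
          · have : (1 + 1 / (4 * x)) * (1 + 1 / 4 * -(1 / x)) = 1 - (1 / (4 * x)) ^ 2 := by
              field_simp
              ring
            rw [this]
            have := sq_nonneg (1 / (4 * x))
            linarith
          · have : 1 / x < 1 := by rw [div_lt_one hx0]; linarith
            linarith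
        · have : 1 / x < 1 := by rw [div_lt_one hx0]; linarith
          linarith
      have b4 : x ^ (-(5 / 4) : ℝ) = x ^ (-(1 / 4) : ℝ) * (1 / x) := by
        rw [show (-(5 / 4) : ℝ) = -(1 / 4) - 1 by norm_num, Real.rpow_sub_one hx0.ne']
        ring
      have b5 : x ^ (-(1 / 4) : ℝ) * (1 + 1 / (4 * x)) ≤ (n : ℝ) ^ (-(1 / 4) : ℝ) := by
        rw [b2]
        exact mul_le_mul_of_nonneg_left b3 (by positivity)
      have b6 : x ^ (-(1 / 4) : ℝ) * (1 + 1 / (4 * x)) =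
          x ^ (-(1 / 4) : ℝ) + 1 / 4 * (x ^ (-(1 / 4) : ℝ) * (1 / x)) := by
        field_simp
      rw [b4]
      linarith
  rcases le_or_gt A S with h | h
  · refine (key S h).trans ?_
    have : 0 ≤ (S : ℝ) ^ (-(1 / 4) : ℝ) := by positivity
    linarith
  · rw [Finset.Ioc_eq_empty (by omega)]
    simp only [Finset.sum_empty]
    positivity

theorem tau_le {C : ℝ} (h5 : ∀ g : ℕ, 1 ≤ g → tau (g ^ 2) ≤ C * (g : ℝ) ^ (1 / 4 : ℝ)) {b : ℕ}
    (hb : 1 ≤ b) : tau b ≤ C * (b : ℝ) ^ (1 / 4 : ℝ) := by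
  refine le_trans ?_ (h5 b hb)
  unfold tau
  have : b.divisors.card ≤ (b ^ 2).divisors.card :=
    Finset.card_le_card (Nat.divisors_subset_of_dvd (by positivity) (dvd_pow_self b (by norm_num)))
  exact_mod_cast this

/-- one value of `b` -/
theorem inner_b (lima : S_LIMA) (div : S_DIVB) (feq : S_FEQ) {Cm Cf : ℝ} (hCm : 0 < Cm) (hCf : 0 < Cf)
    (hm : ∀ p : Par, p.ok → ∀ c : ℕ, c < 8 → Odd c → ∀ (X N : ℕ) (z : ℕ → ℝ),
      1 ≤ X → (∀ d ∈ Icc 1 X, 1 / (8 * (X : ℝ)) ≤ z d) →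
      ∑ d ∈ (Icc 1 X).filter (fun d => d % 8 = c), EA p N d (z d) ^ 2 ≤ Cm * (X * lg X ^ 3))
    (hf : ∀ p : Par, p.ok → ∀ (N d : ℕ) (z z' : ℝ), 0 < z' → z' ≤ z → z ≤ 1 →
      |(EN p N d z + ES p N d z) - (EN p N d z' + ES p N d z')| ≤
        Cf * (z' ^ (-(1 / 4) : ℝ) - z ^ (-(1 / 4) : ℝ)) ∧
      |EN p N d z + ES p N d z| ≤ Cf * z ^ (-(1 / 4) : ℝ))
    {φ : FD} (hφ : Fam φ) {c : ℕ} (hc : c < 8) (hco : Odd c)
    (hA : ∀ d : ℕ, d % 8 = c → Squarefree d → d ≠ 1 → φ.A d) {X b : ℕ} (hb : Odd b) (hbX : b ^ 2 ≤ X) :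
    ∑ e ∈ (Icc 1 (X / b ^ 2)).filter (fun e => e % 8 = c ∧ Squarefree e),
        Einf (par φ) (b ^ 2 * e) (1 / (φ.r * ((b ^ 2 * e : ℕ) : ℝ))) ^ 2 ≤
      3 * Cf ^ 2 * b + 10 * Cm * tau b ^ 2 * (X / (b : ℝ) ^ 2 * lg X ^ 3) := by
  have hp := par_ok hφ
  have hr := hp.2.1
  have hr0 : (0 : ℝ) < φ.r := by exact_mod_cast hr.1
  have hr8 : (φ.r : ℝ) ≤ 8 := by exact_mod_cast hr.2
  have hb1 : 1 ≤ b := hb.pos
  have hb0 : (0 : ℝ) < b := by exact_mod_cast hb1
  set X' : ℕ := X / b ^ 2 with hX'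
  have hX'1 : 1 ≤ X' := by
    rw [hX', Nat.one_le_div_iff (by positivity)]
    exact hbX
  have hX'0 : (0 : ℝ) < X' := by exact_mod_cast hX'1
  set E1 : ℕ → ℝ := fun e => Einf (par φ) e (1 / (φ.r * (e : ℝ))) with hE1
  set E2 : ℕ → ℕ → ℝ := fun g e => Einf (par φ) e (((b : ℝ) / g) ^ 2 / (φ.r * (e : ℝ))) with hE2
  have hz1 : ∀ e ∈ Icc 1 X', 1 / (8 * (X' : ℝ)) ≤ 1 / (φ.r * (e : ℝ)) := by
    intro e he
    rw [mem_Icc] at he
    have he0 : (0 : ℝ) < e := by exact_mod_cast he.1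
    have he1 : (e : ℝ) ≤ X' := by exact_mod_cast he.2
    apply one_div_le_one_div_of_le (by positivity)
    exact mul_le_mul hr8 he1 he0.le (by norm_num)
  have hs1 := msq_lim lima hm hp hc hco hX'1 (fun e => 1 / (φ.r * (e : ℝ))) hz1
  have hs2 : ∀ g ∈ b.divisors, ∑ e ∈ (Icc 1 X').filter (fun e => e % 8 = c), E2 g e ^ 2 ≤
      Cm * (X' * lg X' ^ 3) := by
    intro g hg
    have hgd := Nat.dvd_of_mem_divisors hg
    have hg1 : 1 ≤ g := Nat.pos_of_dvd_of_pos hgd hb1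
    have hg0 : (0 : ℝ) < g := by exact_mod_cast hg1
    have hgb : (g : ℝ) ≤ b := by exact_mod_cast Nat.le_of_dvd hb1 hgd
    refine msq_lim lima hm hp hc hco hX'1 (fun e => ((b : ℝ) / g) ^ 2 / (φ.r * (e : ℝ))) ?_
    intro e he
    refine (hz1 e he).trans ?_
    rw [mem_Icc] at he
    have he0 : (0 : ℝ) < e := by exact_mod_cast he.1
    apply div_le_div_of_nonneg_right _ (by positivity)
    have : 1 ≤ (b : ℝ) / g := by rw [le_div_iff₀ hg0]; linarith
    nlinarith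
  have hpt : ∀ e ∈ (Icc 1 X').filter (fun e => e % 8 = c ∧ Squarefree e),
      Einf (par φ) (b ^ 2 * e) (1 / (φ.r * ((b ^ 2 * e : ℕ) : ℝ))) ^ 2 ≤
      (if e = 1 then 3 * Cf ^ 2 * b else 0) +
        tau b * ∑ g ∈ b.divisors, (8 * E1 e ^ 2 + 2 * E2 g e ^ 2) := by
    intro e he
    rw [mem_filter, mem_Icc] at he
    by_cases h1 : e = 1
    · rw [if_pos h1]
      have h2 : 0 ≤ tau b * ∑ g ∈ b.divisors, (8 * E1 e ^ 2 + 2 * E2 g e ^ 2) :=
        mul_nonneg (tau_nn b) (Finset.sum_nonneg fun g _ => by positivity)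
      have h3 := one_bd lima hCf hf hp hb1 (b ^ 2)
      rw [h1, mul_one]
      rw [h1] at h2
      exact h3.trans (le_add_of_nonneg_right h2)
    · rw [if_neg h1, zero_add]
      exact pt div feq hφ hb he.2.2 (hA e he.2.1 he.2.2 h1)
  refine (Finset.sum_le_sum hpt).trans ?_
  rw [Finset.sum_add_distrib, ← Finset.mul_sum]
  apply add_le_add
  · rw [← Finset.sum_filter]
    have h1 : ((Icc 1 X').filter (fun e => e % 8 = c ∧ Squarefree e)).filter (fun e => e = 1) ⊆ {1} := by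
      intro e he
      rw [mem_filter] at he
      rw [mem_singleton]
      exact he.2
    refine (Finset.sum_le_sum_of_subset_of_nonneg h1 fun e _ _ => by positivity).trans ?_
    rw [Finset.sum_singleton]
  · rw [Finset.sum_comm]
    have h1 : ∀ g ∈ b.divisors, ∑ e ∈ (Icc 1 X').filter (fun e => e % 8 = c ∧ Squarefree e),
        (8 * E1 e ^ 2 + 2 * E2 g e ^ 2) ≤ 10 * Cm * (X' * lg X' ^ 3) := by
      intro g hg
      have hsub : (Icc 1 X').filter (fun e => e % 8 = c ∧ Squarefree e) ⊆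
          (Icc 1 X').filter (fun e => e % 8 = c) := by
        intro e he
        rw [mem_filter] at he ⊢
        exact ⟨he.1, he.2.1⟩
      refine (Finset.sum_le_sum_of_subset_of_nonneg hsub fun e _ _ => by positivity).trans ?_
      rw [Finset.sum_add_distrib, ← Finset.mul_sum, ← Finset.mul_sum]
      have := hs2 g hg
      linarith
    have h2 := Finset.sum_le_sum h1
    rw [Finset.sum_const, nsmul_eq_mul] at h2
    have h3 : (X' : ℝ) ≤ X / (b : ℝ) ^ 2 := by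
      have := Nat.cast_div_le (α := ℝ) (m := X) (n := b ^ 2)
      push_cast at this
      exact this
    have h4 : lg X' ≤ lg X := lg_mono (Nat.div_le_self _ _)
    have h5 := lg_one_le X'
    have h6 : (X' : ℝ) * lg X' ^ 3 ≤ X / (b : ℝ) ^ 2 * lg X ^ 3 := by
      apply mul_le_mul h3 _ (by positivity) (by positivity)
      exact pow_le_pow_left₀ (by linarith) h4 3
    calc tau b * ∑ g ∈ b.divisors, ∑ e ∈ (Icc 1 X').filter (fun e => e % 8 = c ∧ Squarefree e),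
          (8 * E1 e ^ 2 + 2 * E2 g e ^ 2)
        ≤ tau b * (tau b * (10 * Cm * (X' * lg X' ^ 3))) := mul_le_mul_of_nonneg_left h2 (tau_nn b)
      _ = 10 * Cm * tau b ^ 2 * (X' * lg X' ^ 3) := by ring
      _ ≤ _ := mul_le_mul_of_nonneg_left h6 (by positivity)

theorem t_TAIL (htau : S_TAU) (lima : S_LIMA) (div : S_DIVB) (feq : S_FEQ) (msq : S_MSQ) (frz : S_FRZ) :
    S_TAIL := by
  obtain ⟨-, ht2, -, -, ⟨C5, hC5, h5⟩⟩ := htau
  obtain ⟨Cm, hCm, hm⟩ := msq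
  obtain ⟨Cf, hCf, hf⟩ := frz
  intro φ hφ c hc hco hA
  set K1 : ℝ := 3 * Cf ^ 2 with hK1
  set K2 : ℝ := 10 * Cm * C5 ^ 3 with hK2
  have hK10 : 0 < K1 := by rw [hK1]; positivity
  have hK20 : 0 < K2 := by rw [hK2]; positivity
  refine ⟨K1 + 4 * K2, by positivity, fun A X hA1 hX => ?_⟩
  have hX1 : (1 : ℝ) ≤ X := by exact_mod_cast hX
  have hlgX := lg_one_le X
  set S := Nat.sqrt X with hS
  have hS1 : 1 ≤ S := by
    rw [hS, Nat.le_sqrt]
    exact hX
  have hSX : (S : ℝ) * S ≤ X := by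
    have := Nat.sqrt_le X
    exact_mod_cast this
  refine (split_sum X c (fun d => |RA A d| * Einf (par φ) d (1 / (φ.r * (d : ℝ))) ^ 2)
    (fun d => by positivity) hco).trans ?_
  have hb : ∀ b ∈ (Icc 1 S).filter (fun b => Odd b),
      ∑ e ∈ (Icc 1 (X / b ^ 2)).filter (fun e => e % 8 = c ∧ Squarefree e),
        |RA A (b ^ 2 * e)| * Einf (par φ) (b ^ 2 * e) (1 / (φ.r * ((b ^ 2 * e : ℕ) : ℝ))) ^ 2 ≤
      K1 * S * tau b + if A < b then K2 * (X * lg X ^ 3) * (b : ℝ) ^ (-(5 / 4) : ℝ) else 0 := by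
    intro b hb
    rw [mem_filter, mem_Icc] at hb
    obtain ⟨⟨hb1, hb2⟩, hbo⟩ := hb
    have hb0 : (0 : ℝ) < b := by exact_mod_cast hb1
    have hbS : (b : ℝ) ≤ S := by exact_mod_cast hb2
    have hbX : b ^ 2 ≤ X := by
      have h1 := Nat.sqrt_le X
      calc b ^ 2 = b * b := sq b
        _ ≤ S * S := Nat.mul_le_mul hb2 hb2
        _ ≤ X := h1
    have hin := inner_b lima div feq hCm hCf hm hf hφ hc hco hA hbo hbX
    have h1 : ∑ e ∈ (Icc 1 (X / b ^ 2)).filter (fun e => e % 8 = c ∧ Squarefree e),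
        |RA A (b ^ 2 * e)| * Einf (par φ) (b ^ 2 * e) (1 / (φ.r * ((b ^ 2 * e : ℕ) : ℝ))) ^ 2 ≤
        (if A < b then tau b else 0) *
          (K1 * b + 10 * Cm * tau b ^ 2 * (X / (b : ℝ) ^ 2 * lg X ^ 3)) := by
      calc _ ≤ ∑ e ∈ (Icc 1 (X / b ^ 2)).filter (fun e => e % 8 = c ∧ Squarefree e),
            (if A < b then tau b else 0) *
              Einf (par φ) (b ^ 2 * e) (1 / (φ.r * ((b ^ 2 * e : ℕ) : ℝ))) ^ 2 := by
            apply Finset.sum_le_sum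
            intro e he
            rw [mem_filter] at he
            exact mul_le_mul_of_nonneg_right (RA_le hb1 he.2.2) (sq_nonneg _)
        _ = (if A < b then tau b else 0) *
            ∑ e ∈ (Icc 1 (X / b ^ 2)).filter (fun e => e % 8 = c ∧ Squarefree e),
              Einf (par φ) (b ^ 2 * e) (1 / (φ.r * ((b ^ 2 * e : ℕ) : ℝ))) ^ 2 := by
            rw [Finset.mul_sum]
        _ ≤ _ := by
            apply mul_le_mul_of_nonneg_left hin
            split_ifs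
            · exact tau_nn b
            · exact le_rfl
    refine h1.trans ?_
    by_cases hAb : A < b
    · rw [if_pos hAb, if_pos hAb]
      have ht := tau_le h5 hb1
      have ht0 := tau_nn b
      have h3 : tau b ^ 3 ≤ C5 ^ 3 * (b : ℝ) ^ (3 / 4 : ℝ) := by
        calc tau b ^ 3 ≤ (C5 * (b : ℝ) ^ (1 / 4 : ℝ)) ^ 3 := pow_le_pow_left₀ ht0 ht 3
          _ = C5 ^ 3 * ((b : ℝ) ^ (1 / 4 : ℝ)) ^ 3 := by ring
          _ = _ := by
            congr 1
            rw [← Real.rpow_natCast, ← Real.rpow_mul hb0.le]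
            norm_num
      have h4 : (b : ℝ) ^ (3 / 4 : ℝ) / (b : ℝ) ^ 2 = (b : ℝ) ^ (-(5 / 4) : ℝ) := by
        rw [← Real.rpow_natCast, ← Real.rpow_sub hb0]
        norm_num
      calc tau b * (K1 * b + 10 * Cm * tau b ^ 2 * (X / (b : ℝ) ^ 2 * lg X ^ 3))
          = K1 * b * tau b + 10 * Cm * (X * lg X ^ 3) * (tau b ^ 3 / (b : ℝ) ^ 2) := by ring
        _ ≤ K1 * S * tau b + 10 * Cm * (X * lg X ^ 3) *
            (C5 ^ 3 * (b : ℝ) ^ (3 / 4 : ℝ) / (b : ℝ) ^ 2) := by gcongr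
        _ = _ := by
            rw [mul_div_assoc, h4, hK2]
            ring
    · rw [if_neg hAb, if_neg hAb, zero_mul, add_zero]
      have := tau_nn b
      positivity
  refine (Finset.sum_le_sum hb).trans ?_
  have hsub : (Icc 1 S).filter (fun b => Odd b) ⊆ Icc 1 S := Finset.filter_subset _ _
  have hnn : ∀ b : ℕ, 0 ≤ K1 * S * tau b +
      if A < b then K2 * (X * lg X ^ 3) * (b : ℝ) ^ (-(5 / 4) : ℝ) else 0 := by
    intro b
    have := tau_nn b
    have h1 : (0 : ℝ) ≤ if A < b then K2 * (X * lg X ^ 3) * (b : ℝ) ^ (-(5 / 4) : ℝ) else 0 := by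
      split_ifs
      · positivity
      · exact le_rfl
    positivity
  refine (Finset.sum_le_sum_of_subset_of_nonneg hsub fun b _ _ => hnn b).trans ?_
  rw [Finset.sum_add_distrib, ← Finset.mul_sum, ← Finset.sum_filter, ← Finset.mul_sum]
  have hT := (ht2 S hS1).1
  have hIoc : (Icc 1 S).filter (fun b => A < b) = Ioc A S := by
    ext b
    rw [mem_filter, mem_Icc, mem_Ioc]
    omega
  rw [hIoc]
  have hA0 : (0 : ℝ) < A := by exact_mod_cast hA1
  have e1 : K1 * S * ∑ b ∈ Icc 1 S, tau b ≤ K1 * (X * lg X ^ 2) := by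
    have h1 : lg S ≤ lg X := lg_mono (Nat.sqrt_le_self X)
    have h2 := lg_one_le S
    calc K1 * S * ∑ b ∈ Icc 1 S, tau b ≤ K1 * S * (S * lg S) := by gcongr
      _ = K1 * ((S : ℝ) * S * lg S) := by ring
      _ ≤ K1 * (X * lg X ^ 2) := by
          apply mul_le_mul_of_nonneg_left _ hK10.le
          apply mul_le_mul hSX _ (by linarith) (by positivity)
          nlinarith
  have e2 : K2 * (X * lg X ^ 3) * ∑ b ∈ Ioc A S, (b : ℝ) ^ (-(5 / 4) : ℝ) ≤
      4 * K2 * (X * lg X ^ 3 / (A : ℝ) ^ (1 / 4 : ℝ)) := by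
    have h1 := tail_sum A S hA1
    calc K2 * (X * lg X ^ 3) * ∑ b ∈ Ioc A S, (b : ℝ) ^ (-(5 / 4) : ℝ)
        ≤ K2 * (X * lg X ^ 3) * (4 * (A : ℝ) ^ (-(1 / 4) : ℝ)) := by gcongr
      _ = _ := by
          rw [Real.rpow_neg hA0.le]
          ring
  have p1 : 0 ≤ X * lg X ^ 3 / (A : ℝ) ^ (1 / 4 : ℝ) := by positivity
  have p2 : 0 ≤ X * lg X ^ 2 := by positivity
  nlinarith [mul_nonneg hK10.le p1, mul_nonneg hK20.le p2]

end

end Pool.Agent.H75.BR3T
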